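import Mathlib.Algebra.Category.Grp.AB
import Mathlib.RingTheory.MvPolynomial.Homogeneous
import Mathlib.AlgebraicGeometry.Morphisms.ClosedImmersion
import Mathlib.AlgebraicGeometry.ProjectiveSpectrum.Scheme
import Mathlib.CategoryTheory.Abelian.GrothendieckAxioms.Sheaf
import Mathlib.CategoryTheory.Abelian.GrothendieckCategory.HasExt
import Mathlib.CategoryTheory.Sites.SheafCohomology.Basic
import Mathlib.Combinatorics.Quiver.ReflQuiver

/-!
The restriction map on `H¹(-, 𝒦₁)` to the infinitesimal thickenings of the special fibre.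
-/

open AlgebraicGeometry CategoryTheory Limits TopologicalSpace Opposite

namespace Pool.Agent.MP_55d974_ag

noncomputable section

attribute [local instance] MvPolynomial.gradedAlgebra in
/-- `f : X ⟶ S` is a closed immersion into `ℙⁿ_S = ℙⁿ_ℤ × S` followed by the projection. -/
def IsProjective {X S : Scheme.{0}} (f : X ⟶ S) : Prop :=
  ∃ (n : ℕ) (i : X ⟶ Proj (MvPolynomial.homogeneousSubmodule (Fin (n + 1)) ℤ) ⨯ S),
    IsClosedImmersion i ∧ i ≫ prod.snd = f

/-- Abelian sheaves on the Zariski site of `X`. -/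
abbrev AbSheaf (X : Scheme.{0}) : Type 1 :=
  Sheaf (Opens.grothendieckTopology X) AddCommGrpCat.{0}

/-- The group of units, written additively. -/
def unitsF : CommRingCat.{0} ⥤ AddCommGrpCat.{0} where
  obj R := AddCommGrpCat.of (Additive Rˣ)
  map φ := AddCommGrpCat.ofHom (MonoidHom.toAdditive (Units.map φ.hom.toMonoidHom))

theorem isSheaf_units {T : TopCat.{0}} (P : TopCat.Sheaf CommRingCat.{0} T) :
    TopCat.Presheaf.IsSheaf (X := T) (P.obj ⋙ unitsF) := by
  refine (TopCat.Presheaf.isSheaf_iff_isSheafUniqueGluing _).2 fun ι U sf h => ?_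
  let u : ∀ i, (P.obj.obj (op (U i)))ˣ := fun i => Additive.toMul (sf i)
  have hu : ∀ i j, Units.map (P.obj.map (Opens.infLELeft (U i) (U j)).op).hom.toMonoidHom (u i) =
      Units.map (P.obj.map (Opens.infLERight (U i) (U j)).op).hom.toMonoidHom (u j) :=
    fun i j => congrArg Additive.toMul (h i j)
  obtain ⟨a, ha, -⟩ := P.existsUnique_gluing U (fun i => (u i).val)
    fun i j => congrArg Units.val (hu i j)
  obtain ⟨b, hb, -⟩ := P.existsUnique_gluing U (fun i => (u i).inv)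
    fun i j => congrArg Units.inv (hu i j)
  have hab : a * b = 1 := P.eq_of_locally_eq U _ _ fun i => by
    rw [map_mul, map_one, ha i, hb i]
    exact (u i).val_inv
  refine ⟨Additive.ofMul ⟨a, b, hab, by rw [mul_comm, hab]⟩,
    fun i => Additive.toMul.injective (Units.ext (ha i)), fun s hs => ?_⟩
  refine Additive.toMul.injective (Units.ext (P.eq_of_locally_eq U _ _ fun i => ?_))
  exact (congrArg (fun v => (Additive.toMul v).val) (hs i)).trans (ha i).symm

variable {X Y Z : Scheme.{0}}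

/-- For `g : Y ⟶ X`, the presheaf of rings `g_* 𝒪_Y` on `X`. -/
def pf (g : Y ⟶ X) : X.Opensᵒᵖ ⥤ CommRingCat.{0} := (Opens.map g.base).op ⋙ Y.presheaf

theorem isSheaf_K1 (g : Y ⟶ X) :
    Presheaf.IsSheaf (Opens.grothendieckTopology X) (pf g ⋙ unitsF) :=
  isSheaf_units ((TopCat.Sheaf.pushforward CommRingCat g.base).obj Y.sheaf)

/-- For `g : Y ⟶ X`, the sheaf `g_* 𝒪_Y^×` on `X`. -/
def K1 (g : Y ⟶ X) : AbSheaf X := ⟨pf g ⋙ unitsF, isSheaf_K1 g⟩

/-- `h` maps the preimage under `g'` of an open set into its preimage under `g`. -/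
def Compat (g : Y ⟶ X) (g' : Z ⟶ X) (h : Z ⟶ Y) : Prop :=
  ∀ U : X.Opens, g' ⁻¹ᵁ U ≤ h ⁻¹ᵁ g ⁻¹ᵁ U

/-- Pull-back of functions along `h : Z ⟶ Y`. -/
def pfApp (g : Y ⟶ X) (g' : Z ⟶ X) (h : Z ⟶ Y) (e : Compat g g' h) (U : X.Opensᵒᵖ) :
    (pf g).obj U ⟶ (pf g').obj U :=
  h.appLE (g ⁻¹ᵁ U.unop) (g' ⁻¹ᵁ U.unop) (e U.unop)

theorem pfNat (g : Y ⟶ X) (g' : Z ⟶ X) (h : Z ⟶ Y) (e : Compat g g' h) ⦃U V : X.Opensᵒᵖ⦄
    (i : U ⟶ V) : (pf g).map i ≫ pfApp g g' h e V = pfApp g g' h e U ≫ (pf g').map i :=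
  (h.map_appLE _ _).trans (h.appLE_map _ _).symm

/-- Pull-back of units along `h : Z ⟶ Y`. -/
def K1map (g : Y ⟶ X) (g' : Z ⟶ X) (h : Z ⟶ Y) (e : Compat g g' h) : K1 g ⟶ K1 g' :=
  ⟨Functor.whiskerRight ⟨pfApp g g' h e, pfNat g g' h e⟩ unitsF⟩

theorem hasExt (X : Scheme.{0}) : HasExt.{0} (AbSheaf X) := inferInstance

/-- The functor `F ↦ H¹(X, F)`. -/
def HF (X : Scheme.{0}) : AbSheaf X ⥤ AddCommGrpCat.{0} :=
  (@Sheaf.cohomologyPresheafFunctor.{0} _ _ (Opens.grothendieckTopology X) _ (hasExt X) 1).flip.obj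
    (op ⊤)

variable {A : Type} [CommRing A] (f : X ⟶ Spec (.of A)) (π : A)

/-- The closed subscheme `Spec (A / π ^ n)` of `Spec A`. -/
def baseι (n : ℕ) : Spec (.of (A ⧸ Ideal.span {π ^ n})) ⟶ Spec (.of A) :=
  Spec.map (CommRingCat.ofHom (Ideal.Quotient.mk _))

/-- The scheme `X_n = X ×_A A / π ^ n`. -/
abbrev Xn (n : ℕ) : Scheme.{0} := pullback f (baseι π n)

/-- The closed immersion `X_n ⟶ X`. -/
def thick (n : ℕ) : Xn f π n ⟶ X := pullback.fst _ _

/-- The closed immersion `X_n ⟶ X_{n+1}`. -/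
def step (n : ℕ) : Xn f π n ⟶ Xn f π (n + 1) :=
  pullback.lift (pullback.fst _ _) (pullback.snd _ _ ≫ Spec.map (CommRingCat.ofHom
    (Ideal.Quotient.factor (Ideal.span_singleton_le_span_singleton.2
      (pow_dvd_pow π n.le_succ))))) (by
    rw [pullback.condition, Category.assoc]
    unfold baseι
    rw [← Spec.map_comp]
    rfl)

theorem step_thick (n : ℕ) : step f π n ≫ thick f π (n + 1) = thick f π n :=
  pullback.lift_fst _ _ _

theorem compat_step (n : ℕ) : Compat (thick f π (n + 1)) (thick f π n) (step f π n) :=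
  fun U => by rw [← Scheme.Hom.comp_preimage, step_thick]

theorem compat_thick (n : ℕ) : Compat (𝟙 X) (thick f π n) (thick f π n) := fun _ => le_rfl

/-- The transition map `𝒪_{X_{n+1}}^× ⟶ 𝒪_{X_n}^×`. -/
def trans (n : ℕ) : K1 (thick f π (n + 1)) ⟶ K1 (thick f π n) :=
  K1map _ _ (step f π n) (compat_step f π n)

/-- The restriction `𝒪_X^× ⟶ 𝒪_{X_n}^×`. -/
def restr (n : ℕ) : K1 (𝟙 X) ⟶ K1 (thick f π n) := K1map _ _ (thick f π n) (compat_thick f π n)

/-- A compatible system in the tower `H` that is, for each `r ≥ 1`, not congruent modulo `p ^ r`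
at all levels to the image of an element of `C`. -/
def Missed (C : AddCommGrpCat.{0}) (H : ℕ → AddCommGrpCat.{0}) (t : ∀ n, H (n + 1) ⟶ H n)
    (res : ∀ n, C ⟶ H n) (p : ℕ) : Prop :=
  ∃ y : ∀ n, H n, (∀ n, (t n).hom (y (n + 1)) = y n) ∧
    ∀ r : ℕ, 1 ≤ r → ∀ c : C, ∃ n, ∀ z : H n, (res n).hom c - y n ≠ p ^ r • z

end

end Pool.Agent.MP_55d974_ag
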