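import Mathlib.Logic.UnivLE
import Mathlib.Data.Opposite
import Mathlib.CategoryTheory.Functor.Category
import Mathlib.CategoryTheory.ObjectProperty.FullSubcategory
import Mathlib.CategoryTheory.Opposites
import Mathlib.CategoryTheory.Types.Basic
import Mathlib.CategoryTheory.ConcreteCategory.ReflectsIso
import Mathlib.CategoryTheory.Adjunction.Basic
import Mathlib.CategoryTheory.Limits.Types.Colimits
import Mathlib.CategoryTheory.Limits.Types.Limits
import Mathlib.CategoryTheory.Limits.ConcreteCategory.Basic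
import Mathlib.CategoryTheory.Adjunction.Limits
import Mathlib.CategoryTheory.Limits.Shapes.Multiequalizer
import Mathlib.CategoryTheory.Sites.Grothendieck
import Mathlib.CategoryTheory.Sites.ConcreteSheafification
import Mathlib.Algebra.AlgebraicCard
import Mathlib.Algebra.DualNumber
import Mathlib.Algebra.Field.ZMod
import Mathlib.Algebra.GroupWithZero.Submonoid.CancelMulZero
import Mathlib.Data.Finsupp.Encodable
import Mathlib.AlgebraicGeometry.QuasiAffine
import Mathlib.CategoryTheory.EffectiveEpi.Comp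
import Mathlib.AlgebraicGeometry.Morphisms.Etale
import Mathlib.AlgebraicGeometry.Modules.Sheaf
import Mathlib.AlgebraicGeometry.ProjectiveSpectrum.Functor
import Mathlib.AlgebraicGeometry.ProjectiveSpectrum.Proper
import Mathlib.CategoryTheory.ExtremalEpi
import Mathlib.CategoryTheory.Sites.EpiMono
import Mathlib.RingTheory.PowerSeries.Derivative
import Mathlib.RingTheory.SimpleRing.Principal
import Mathlib.Order.CompletePartialOrder
import Mathlib.RingTheory.AdicCompletion.Completeness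
import Mathlib.RingTheory.Etale.Weakly
import Mathlib.RingTheory.Henselian
import Mathlib.RingTheory.MvPolynomial.IrreducibleQuadratic
import Mathlib.RingTheory.RegularLocalRing.Polynomial
import Mathlib.Tactic.Polynomial.Basic
import Mathlib.Topology.Sheaves.AddCommGrpCat
import Mathlib.Topology.Sheaves.MayerVietoris
import Pool.Agent.MP_55d974_ag.Defs

-- ======== part 0: formerly Pool.Agent.MP_55d974_ag.Cech
section MrgPart0

/-!
Explicit description of classes in `H¹`.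
-/

open AlgebraicGeometry CategoryTheory Limits TopologicalSpace Opposite Abelian

namespace Pool.Agent.MP_55d974_ag

noncomputable section

variable {X : Scheme.{0}}

/-- the free abelian sheaf on an open set -/
abbrev ZU (U : X.Opens) : AbSheaf X :=
  (presheafToSheaf _ _).obj (yoneda.obj U ⋙ AddCommGrpCat.free)

/-- functoriality of `ZU` -/
abbrev ZM {U V : X.Opens} (i : U ⟶ V) : ZU U ⟶ ZU V :=
  (presheafToSheaf _ _).map (Functor.whiskerRight (yoneda.map i) _)

/-- restriction of sections -/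
abbrev rs (F : AbSheaf X) {U V : X.Opens} (h : U ≤ V) : F.obj.obj (op V) →+ F.obj.obj (op U) :=
  (F.obj.map (homOfLE h).op).hom

/-- a morphism of sheaves on sections -/
abbrev ap {F G : AbSheaf X} (φ : F ⟶ G) (U : X.Opens) : F.obj.obj (op U) →+ G.obj.obj (op U) :=
  (φ.hom.app (op U)).hom

theorem rs_rs (F : AbSheaf X) {U V W : X.Opens} (h : U ≤ V) (h' : V ≤ W) (s : F.obj.obj (op W)) :
    rs F h (rs F h' s) = rs F (h.trans h') s := by
  change (F.obj.map _ ≫ F.obj.map _).hom s = _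
  rw [← F.obj.map_comp]
  rfl

theorem rs_refl (F : AbSheaf X) {U : X.Opens} (h : U ≤ U) (s : F.obj.obj (op U)) :
    rs F h s = s := by
  change (F.obj.map (𝟙 _)).hom s = _
  rw [F.obj.map_id]
  rfl

theorem ap_rs {F G : AbSheaf X} (φ : F ⟶ G) {U V : X.Opens} (h : U ≤ V) (s : F.obj.obj (op V)) :
    ap φ U (rs F h s) = rs G h (ap φ V s) := by
  change (F.obj.map _ ≫ φ.hom.app _).hom s = (φ.hom.app _ ≫ G.obj.map _).hom s
  rw [φ.hom.naturality]

theorem ap_comp {F G H : AbSheaf X} (φ : F ⟶ G) (ψ : G ⟶ H) (U : X.Opens) (s : F.obj.obj (op U)) :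
    ap (φ ≫ ψ) U s = ap ψ U (ap φ U s) := rfl

theorem ap_add {F G : AbSheaf X} (φ ψ : F ⟶ G) (U : X.Opens) (s : F.obj.obj (op U)) :
    ap (φ + ψ) U s = ap φ U s + ap ψ U s := rfl

theorem ap_neg {F G : AbSheaf X} (φ : F ⟶ G) (U : X.Opens) (s : F.obj.obj (op U)) :
    ap (-φ) U s = -ap φ U s := rfl

theorem ap_sub {F G : AbSheaf X} (φ ψ : F ⟶ G) (U : X.Opens) (s : F.obj.obj (op U)) :
    ap (φ - ψ) U s = ap φ U s - ap ψ U s := by
  rw [sub_eq_add_neg, ap_add, ap_neg, sub_eq_add_neg]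

theorem ap_zero {F G : AbSheaf X} (U : X.Opens) (s : F.obj.obj (op U)) :
    ap (0 : F ⟶ G) U s = 0 := rfl

theorem ap_nsmul {F G : AbSheaf X} (φ : F ⟶ G) (m : ℕ) (U : X.Opens) (s : F.obj.obj (op U)) :
    ap (m • φ) U s = m • ap φ U s := by
  induction m with
  | zero => rw [zero_smul, zero_smul, ap_zero]
  | succ m ih => rw [succ_nsmul, succ_nsmul, ap_add, ih]

theorem hom_ext' {F G : AbSheaf X} {φ ψ : F ⟶ G} (h : ∀ U s, ap φ U s = ap ψ U s) : φ = ψ := by
  ext U s
  exact h U.unop s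

/-- the generator attached to an inclusion -/
def gen {W U : X.Opens} (i : W ⟶ U) : (ZU U).obj.obj (op W) :=
  ((toSheafify _ (yoneda.obj U ⋙ AddCommGrpCat.free)).app (op W)).hom (FreeAbelianGroup.of i)

theorem rs_gen {W U : X.Opens} (i : W ⟶ U) : rs (ZU U) i.le (gen (𝟙 U)) = gen i := by
  have := (toSheafify (Opens.grothendieckTopology X)
    (yoneda.obj U ⋙ AddCommGrpCat.free)).naturality (homOfLE i.le).op
  have h := congrArg (fun ψ => ψ.hom (FreeAbelianGroup.of (𝟙 U))) this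
  refine h.symm.trans ?_
  change ((toSheafify _ (yoneda.obj U ⋙ AddCommGrpCat.free)).app (op W)).hom
    (FreeAbelianGroup.map _ (FreeAbelianGroup.of (𝟙 U))) = _
  rw [FreeAbelianGroup.map_of_apply]
  rfl

theorem ap_ZM_gen {U V : X.Opens} (i : U ⟶ V) : ap (ZM i) U (gen (𝟙 U)) = gen i := by
  have := toSheafify_naturality (Opens.grothendieckTopology X)
    (Functor.whiskerRight (yoneda.map i) AddCommGrpCat.free)
  have h := congrArg (fun ψ => (ψ.app (op U)).hom (FreeAbelianGroup.of (𝟙 U))) this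
  refine h.symm.trans ?_
  change ((toSheafify _ (yoneda.obj V ⋙ AddCommGrpCat.free)).app (op U)).hom
    (FreeAbelianGroup.map _ (FreeAbelianGroup.of (𝟙 U))) = _
  rw [FreeAbelianGroup.map_of_apply]
  rfl

/-- the section attached to a morphism from `ZU U` -/
def ev {U : X.Opens} {F : AbSheaf X} (φ : ZU U ⟶ F) : F.obj.obj (op U) := ap φ U (gen (𝟙 U))

theorem ev_comp {U : X.Opens} {F G : AbSheaf X} (φ : ZU U ⟶ F) (ψ : F ⟶ G) :
    ev (φ ≫ ψ) = ap ψ U (ev φ) := rfl

theorem ev_ZM {U V : X.Opens} {F : AbSheaf X} (i : U ⟶ V) (φ : ZU V ⟶ F) :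
    ev (ZM i ≫ φ) = rs F i.le (ev φ) := by
  rw [ev, ap_comp, ap_ZM_gen, ← rs_gen, ap_rs, ev]

theorem ev_inj {U : X.Opens} {F : AbSheaf X} {φ ψ : ZU U ⟶ F} (h : ev φ = ev ψ) : φ = ψ := by
  apply Sheaf.hom_ext
  refine sheafify_hom_ext _ _ _ F.property ?_
  ext W : 2
  refine AddCommGrpCat.hom_ext (FreeAbelianGroup.lift_ext _ _ fun i => ?_)
  have h1 : ∀ χ : ZU U ⟶ F, ap χ W.unop (gen i) = rs F (Quiver.Hom.le i) (ev χ) := fun χ => by
    rw [← rs_gen, ap_rs, ev]
  exact (h1 φ).trans (h ▸ (h1 ψ).symm)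

theorem ev_surj {U : X.Opens} {F : AbSheaf X} (s : F.obj.obj (op U)) :
    ∃ φ : ZU U ⟶ F, ev φ = s := by
  let η : yoneda.obj U ⋙ AddCommGrpCat.free ⟶ F.obj :=
    { app := fun W => AddCommGrpCat.ofHom
        (FreeAbelianGroup.lift fun i : W.unop ⟶ U => rs F i.le s)
      naturality := fun W W' j => by
        refine AddCommGrpCat.hom_ext (FreeAbelianGroup.lift_ext _ _ fun i => ?_)
        change FreeAbelianGroup.lift (fun i : W'.unop ⟶ U => rs F i.le s)
            (FreeAbelianGroup.map _ (FreeAbelianGroup.of i)) =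
          rs F j.unop.le (FreeAbelianGroup.lift (fun i : W.unop ⟶ U => rs F i.le s)
            (FreeAbelianGroup.of i))
        rw [FreeAbelianGroup.map_of_apply, FreeAbelianGroup.lift_apply_of,
          FreeAbelianGroup.lift_apply_of, rs_rs] }
  refine ⟨⟨sheafifyLift _ η F.property⟩, ?_⟩
  have := toSheafify_sheafifyLift (Opens.grothendieckTopology X) η F.property
  have h := congrArg (fun ψ => (ψ.app (op U)).hom (FreeAbelianGroup.of (𝟙 U))) this
  refine h.trans ?_
  change FreeAbelianGroup.lift (fun i : U ⟶ U => rs F i.le s) (FreeAbelianGroup.of (𝟙 U)) = s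
  rw [FreeAbelianGroup.lift_apply_of, rs_refl]

/-- the morphism attached to a section -/
def sec {U : X.Opens} {F : AbSheaf X} (s : F.obj.obj (op U)) : ZU U ⟶ F := (ev_surj s).choose

theorem ev_sec {U : X.Opens} {F : AbSheaf X} (s : F.obj.obj (op U)) : ev (sec s) = s :=
  (ev_surj s).choose_spec

theorem sec_sub {U : X.Opens} {F : AbSheaf X} (s t : F.obj.obj (op U)) :
    sec (s - t) = sec s - sec t := ev_inj (by
  rw [ev_sec, ev, ap_sub]
  exact (congrArg₂ (· - ·) (ev_sec s) (ev_sec t)).symm)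

theorem sec_ap {U : X.Opens} {F G : AbSheaf X} (φ : F ⟶ G) (s : F.obj.obj (op U)) :
    sec (ap φ U s) = sec s ≫ φ := ev_inj (by rw [ev_sec, ev_comp, ev_sec])

/-- The cohomology group `H¹(X, F)`. -/
abbrev H1 (F : AbSheaf X) : Type := (HF X).obj F

/-- The map induced on `H¹` by a morphism of sheaves. -/
def H1map {F G : AbSheaf X} (φ : F ⟶ G) : H1 F →+ H1 G := ((HF X).map φ).hom

/-- `H¹` as an `Ext` group -/
def toE (F : AbSheaf X) : H1 F ≃+ Ext.{0} (ZU ⊤) F 1 := AddEquiv.refl _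

theorem H1map_apply {F G : AbSheaf X} (φ : F ⟶ G) (x : H1 F) :
    toE G (H1map φ x) = (toE F x).comp (Ext.mk₀ φ) (add_zero 1) := rfl

theorem mk₀_sub {F G : AbSheaf X} (φ ψ : F ⟶ G) :
    (Ext.mk₀ (φ - ψ) : Ext.{0} F G 0) = Ext.mk₀ φ - Ext.mk₀ ψ := by
  rw [sub_eq_add_neg, Ext.mk₀_add, Ext.mk₀_neg, sub_eq_add_neg]

theorem H1map_nsmul_eq_zero {F G : AbSheaf X} {φ : F ⟶ G} {m : ℕ} (h : m • φ = 0) (x : H1 F) :
    H1map φ (m • x) = 0 := by
  have : ∀ (k : ℕ) (y : Ext.{0} (ZU ⊤) F 1), k • y.comp (Ext.mk₀ φ) (add_zero 1) =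
      y.comp (Ext.mk₀ (k • φ)) (add_zero 1) := fun k y => by
    induction k with
    | zero => rw [zero_smul, zero_smul, Ext.mk₀_zero, Ext.comp_zero]
    | succ k ih => rw [succ_nsmul, succ_nsmul, ih, Ext.mk₀_add, Ext.comp_add]
  apply (toE G).injective
  rw [map_nsmul, map_nsmul, H1map_apply, this, h, Ext.mk₀_zero, Ext.comp_zero, map_zero]

/-! ### the Mayer-Vietoris boundary -/

section MV

variable {U V : X.Opens} (hUV : ⊤ = U ⊔ V)

/-- the square of a cover by two open sets -/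
def sq : (Opens.grothendieckTopology X).MayerVietorisSquare :=
  Opens.mayerVietorisSquare'
    { X₁ := U ⊓ V
      X₂ := U
      X₃ := V
      X₄ := ⊤
      f₁₂ := homOfLE inf_le_left
      f₁₃ := homOfLE inf_le_right
      f₂₄ := homOfLE le_top
      f₃₄ := homOfLE le_top
      fac := Subsingleton.elim _ _ } hUV rfl

/-- the class of the Mayer-Vietoris extension -/
def cls : Ext.{0} (ZU (⊤ : X.Opens)) (ZU (U ⊓ V)) 1 := (sq hUV).shortComplex_shortExact.extClass

/-- the boundary map -/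
def bd {F : AbSheaf X} (g : F.obj.obj (op (U ⊓ V))) : H1 F :=
  (toE F).symm ((cls hUV).comp (Ext.mk₀ (sec g)) (add_zero 1))

theorem bd_sub {F : AbSheaf X} (g g' : F.obj.obj (op (U ⊓ V))) :
    bd hUV (g - g') = bd hUV g - bd hUV g' := by
  unfold bd
  rw [sec_sub, mk₀_sub, sub_eq_add_neg, Ext.comp_add, Ext.comp_neg, ← sub_eq_add_neg, map_sub]

theorem H1map_bd {F G : AbSheaf X} (φ : F ⟶ G) (g : F.obj.obj (op (U ⊓ V))) :
    H1map φ (bd hUV g) = bd hUV (ap φ _ g) := by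
  apply (toE G).injective
  rw [H1map_apply]
  unfold bd
  rw [sec_ap, ← Ext.mk₀_comp_mk₀, AddEquiv.apply_symm_apply, AddEquiv.apply_symm_apply]
  exact Ext.comp_assoc _ _ _ _ _ (by omega)

theorem exists_of_bd {F : AbSheaf X} {g : F.obj.obj (op (U ⊓ V))} (h : bd hUV g = 0) :
    ∃ (a : F.obj.obj (op U)) (b : F.obj.obj (op V)),
      g = rs F inf_le_left a - rs F inf_le_right b := by
  obtain ⟨x, hx⟩ := Ext.contravariant_sequence_exact₁ (sq hUV).shortComplex_shortExact F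
    (Ext.mk₀ (sec g)) (add_zero 1) ((toE F).symm.map_eq_zero_iff.1 h)
  obtain ⟨ψ, rfl⟩ := (Ext.mk₀_bijective _ _).2 x
  rw [Ext.mk₀_comp_mk₀] at hx
  have h1 := (Ext.mk₀_bijective _ _).1 hx
  let ψ' : ZU U ⊞ ZU V ⟶ F := ψ
  have h2 : sec g = ZM (homOfLE inf_le_left) ≫ (biprod.inl ≫ ψ') -
      ZM (homOfLE inf_le_right) ≫ (biprod.inr ≫ ψ') := by
    refine h1.symm.trans ?_
    change biprod.lift (ZM (homOfLE inf_le_left)) (-ZM (homOfLE inf_le_right)) ≫ ψ' = _
    rw [biprod.lift_eq, Preadditive.add_comp, Category.assoc, Category.assoc,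
      Preadditive.neg_comp, sub_eq_add_neg]
  refine ⟨ev (biprod.inl ≫ ψ'), ev (biprod.inr ≫ ψ'), ?_⟩
  rw [← ev_sec g, h2, ev, ap_sub]
  exact congrArg₂ (· - ·) (ev_ZM _ _) (ev_ZM _ _)

end MV

/-! ### countability -/

theorem countable_H1 [CompactSpace X] (F : AbSheaf X) (B : Set X.Opens) (hB : B.Countable)
    (hb : ∀ (x : X) (W : X.Opens), x ∈ W → ∃ b ∈ B, x ∈ b ∧ b ≤ W)
    (hF : ∀ b ∈ B, ∀ b' ∈ B, Countable (F.obj.obj (op (b ⊓ b')))) : Countable (H1 F) := by
  classical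
  let S := ShortComplex.mk (Injective.ι F) (cokernel.π (Injective.ι F)) (cokernel.condition _)
  have hS : S.ShortExact := { exact := ShortComplex.exact_cokernel _ }
  suffices Countable (Ext.{0} (ZU ⊤) F 1) from (toE F).injective.countable
  let δ : S.X₃.obj.obj (op ⊤) → Ext.{0} (ZU ⊤) F 1 := fun s =>
    (Ext.mk₀ (sec s)).comp hS.extClass (zero_add 1)
  have hδ : Function.Surjective δ := fun x => by
    obtain ⟨y, hy⟩ := Ext.covariant_sequence_exact₁ (ZU ⊤) hS x
      (Ext.eq_zero_of_injective _) (zero_add 1)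
    obtain ⟨ψ, rfl⟩ := (Ext.mk₀_bijective _ _).2 y
    refine ⟨ev ψ, ?_⟩
    have : sec (ev ψ) = ψ := ev_inj (ev_sec _)
    simp only [δ, this]
    exact hy
  have hδ0 : ∀ s s' w, ap S.g ⊤ w = s - s' → δ s = δ s' := fun s s' w hw => by
    have h1 : sec s = sec s' + sec w ≫ S.g := by
      rw [← sec_ap, hw, sec_sub]; abel
    simp only [δ, h1]
    rw [Ext.mk₀_add, Ext.add_comp, ← Ext.mk₀_comp_mk₀,
      Ext.comp_assoc _ _ _ (zero_add 0) (zero_add 1) (by omega), hS.comp_extClass,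
      Ext.comp_zero, add_zero]
  have := hB.to_subtype
  have : ∀ b b' : B, Countable (F.obj.obj (op (b.1 ⊓ b'.1))) := fun b b' => hF _ b.2 _ b'.2
  let D : Type := Σ L : Finset B, ∀ b b' : L, F.obj.obj (op (b.1.1 ⊓ b'.1.1))
  let R : Ext.{0} (ZU ⊤) F 1 → D → Prop := fun x d => ∃ (s : S.X₃.obj.obj (op ⊤))
    (t : ∀ b : d.1, S.X₂.obj.obj (op b.1.1)), δ s = x ∧ (⊤ : X.Opens) ≤ (⨆ b : d.1, b.1.1) ∧
      (∀ b, ap S.g _ (t b) = rs S.X₃ le_top s) ∧
      ∀ b b', ap S.f _ (d.2 b b') = rs S.X₂ inf_le_left (t b) - rs S.X₂ inf_le_right (t b')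
  have hex : ∀ x, ∃ d, R x d := fun x => by
    obtain ⟨s, rfl⟩ := hδ x
    have hl : Sheaf.IsLocallySurjective S.g :=
      (Sheaf.isLocallySurjective_iff_epi' _ S.g).2 hS.epi_g
    have hloc : ∀ y : X, ∃ b : B, y ∈ b.1 ∧ ∃ t, ap S.g b.1 t = rs S.X₃ le_top s := fun y => by
      obtain ⟨W, i, ⟨t, ht⟩, hy⟩ :=
        Presheaf.imageSieve_mem (Opens.grothendieckTopology X) S.g.hom s y trivial
      obtain ⟨b, hbB, hyb, hle⟩ := hb y W hy
      refine ⟨⟨b, hbB⟩, hyb, rs S.X₂ hle t, ?_⟩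
      rw [ap_rs, ← rs_rs S.X₃ hle le_top]
      exact congrArg _ ht
    choose c hc using hloc
    obtain ⟨L, hL⟩ := isCompact_univ.elim_finite_subcover (fun y => ((c y).1 : Set X))
      (fun y => (c y).1.isOpen) fun y _ => Set.mem_iUnion.2 ⟨y, (hc y).1⟩
    have ht : ∀ b : L.image c, ∃ t, ap S.g b.1.1 t = rs S.X₃ le_top s := fun b => by
      obtain ⟨y, -, hy⟩ := Finset.mem_image.1 b.2
      rw [← hy]
      exact (hc y).2
    choose t ht using ht
    have hd : ∀ b b' : L.image c, ∃ u : F.obj.obj (op (b.1.1 ⊓ b'.1.1)), ap S.f _ u =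
        rs S.X₂ inf_le_left (t b) - rs S.X₂ inf_le_right (t b') := fun b b' =>
      TopCat.Sheaf.sections_exact_of_left_exact (X := X.toTopCat) (S := S) hS.exact hS.mono_f _ (by
        change ap S.g _ _ = 0
        rw [map_sub, ap_rs, ap_rs, ht, ht, rs_rs, rs_rs, sub_self])
    choose u hu using hd
    refine ⟨⟨L.image c, u⟩, s, t, rfl, fun y _ => ?_, ht, hu⟩
    obtain ⟨z, hz, hy⟩ := Set.mem_iUnion₂.1 (hL (Set.mem_univ y))
    exact Opens.mem_iSup.2 ⟨⟨c z, Finset.mem_image_of_mem _ hz⟩, hy⟩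
  have huniq : ∀ x x' d, R x d → R x' d → x = x' := by
    rintro _ _ d ⟨s, t, rfl, hc, ht, hu⟩ ⟨s', t', rfl, -, ht', hu'⟩
    obtain ⟨w, hw, -⟩ := TopCat.Sheaf.existsUnique_gluing' (X := X.toTopCat) S.X₂
      (fun b : d.1 => b.1.1) ⊤ (fun _ => homOfLE le_top) hc (fun b => t b - t' b) fun b b' => by
        change rs S.X₂ inf_le_left (t b - t' b) = rs S.X₂ inf_le_right (t b' - t' b')
        have := (hu b b').symm.trans (hu' b b')
        rw [map_sub, map_sub, sub_eq_sub_iff_sub_eq_sub, this]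
    refine hδ0 s s' w (TopCat.Sheaf.eq_of_locally_eq' (X := X.toTopCat) S.X₃
      (fun b : d.1 => b.1.1) ⊤ (fun _ => homOfLE le_top) hc _ _ fun b => ?_)
    change rs S.X₃ le_top (ap S.g ⊤ w) = rs S.X₃ le_top (s - s')
    have hw' : rs S.X₂ le_top w = t b - t' b := hw b
    rw [← ap_rs, hw', map_sub, map_sub, ht, ht']
  choose d hd using hex
  exact Function.Injective.countable (f := d) fun x x' h => huniq x x' _ (hd x) (h ▸ hd x')

end

end Pool.Agent.MP_55d974_ag

end MrgPart0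

-- ======== part 1: formerly Pool.Agent.MP_55d974_ag.Curve
section MrgPart1

/-!
The plane curve `y ^ p z + y z ^ p = x ^ (p + 1)` over the field with `p` elements.
-/

open AlgebraicGeometry CategoryTheory Limits DirectSum HomogeneousLocalization MvPolynomial

namespace Pool.Agent.MP_55d974_ag

noncomputable section

/-! ### graded quotients -/

section Quot

variable {k E : Type} [CommRing k] [CommRing E] [Algebra k E] (ℰ : ℕ → Submodule k E)
  [GradedAlgebra ℰ] (I : Ideal E)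

/-- the image grading -/
def quotGr (d : ℕ) : Submodule k (E ⧸ I) := (ℰ d).map (Ideal.Quotient.mkₐ k I).toLinearMap

/-- the quotient by a homogeneous ideal is graded -/
@[reducible] def quotGraded (hI : I.IsHomogeneous ℰ) : GradedAlgebra (quotGr ℰ I) := by
  classical
  let m : ∀ d, ℰ d →ₗ[k] quotGr ℰ I d := fun d =>
    (Ideal.Quotient.mkₐ k I).toLinearMap.restrict fun x hx => Submodule.mem_map_of_mem hx
  have hm : ∀ x : ⨁ d, ℰ d, DirectSum.coeAddMonoidHom (quotGr ℰ I) (lmap m x) =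
      Ideal.Quotient.mk I (DirectSum.coeAddMonoidHom ℰ x) := fun x => by
    induction x using DirectSum.induction_on with
    | zero => simp
    | of d x => rw [lmap_of, coeAddMonoidHom_of, coeAddMonoidHom_of]; rfl
    | add x y hx hy => simp only [map_add, hx, hy]
  have hint : DirectSum.IsInternal (quotGr ℰ I) := by
    constructor
    · rw [injective_iff_map_eq_zero]
      intro x hx
      obtain ⟨y, rfl⟩ := (lmap_surjective m).2 (fun d z => by
        obtain ⟨_, a, ha, rfl⟩ := z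
        exact ⟨⟨a, ha⟩, rfl⟩) x
      rw [hm, Ideal.Quotient.eq_zero_iff_mem] at hx
      ext d
      have h := hI d hx
      have e : decompose ℰ (DirectSum.coeAddMonoidHom ℰ y) = y := (decompose ℰ).apply_symm_apply y
      rw [e] at h
      exact Ideal.Quotient.eq_zero_iff_mem.2 h
    · intro c
      obtain ⟨a, rfl⟩ := Ideal.Quotient.mk_surjective c
      exact ⟨lmap m (decompose ℰ a), (hm _).trans (congrArg _ ((decompose ℰ).symm_apply_apply a))⟩
  exact
    { one_mem := ⟨1, SetLike.one_mem_graded ℰ, rfl⟩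
      mul_mem := by
        rintro _ _ _ _ ⟨a, ha, rfl⟩ ⟨b, hb, rfl⟩
        exact ⟨a * b, SetLike.mul_mem_graded ha hb, rfl⟩
      toDecomposition := hint.chooseDecomposition }

end Quot

/-! ### closed immersions of `Proj` -/

section Emb

variable {A B σ τ : Type} [CommRing A] [SetLike σ A] [AddSubgroupClass σ A]
  [CommRing B] [SetLike τ B] [AddSubgroupClass τ B]
  {𝒜 : ℕ → σ} {ℬ : ℕ → τ} [GradedRing 𝒜] [GradedRing ℬ] (f : 𝒜 →+*ᵍ ℬ)
  (hf : ∀ d, ∀ b ∈ ℬ d, ∃ a ∈ 𝒜 d, f a = b)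

include hf

theorem irrelevant_le :
    HomogeneousIdeal.irrelevant ℬ ≤ (HomogeneousIdeal.irrelevant 𝒜).map f := by
  rw [← toIdeal_le_toIdeal_iff, HomogeneousIdeal.toIdeal_irrelevant_le]
  intro i hi x hx
  obtain ⟨a, ha, rfl⟩ := hf _ _ hx
  exact Ideal.mem_map_of_mem _ (HomogeneousIdeal.mem_irrelevant_of_mem 𝒜 hi ha)

theorem isClosedImmersion_map : IsClosedImmersion (Proj.map f (irrelevant_le f hf)) := by
  refine IsZariskiLocalAtTarget.of_openCover (P := @IsClosedImmersion)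
    (Proj.affineOpenCover 𝒜).openCover fun i => ?_
  have hi : 0 < (i.1 : ℕ) := i.1.2
  have hp : IsPullback (Proj.awayι ℬ (f i.2) (Graded.map_mem f i.2.2) hi)
      (Spec.map (CommRingCat.ofHom (Away.map f (i.2 : A))))
      (Proj.map f (irrelevant_le f hf)) (Proj.awayι 𝒜 (i.2 : A) i.2.2 hi) := by
    refine (IsOpenImmersion.isPullback _ _ _ _ (Proj.awayι_comp_map f _ hi _ i.2.2) ?_).flip
    rw [Proj.opensRange_awayι, Proj.opensRange_awayι]
    rfl
  have hc : IsClosedImmersion (Spec.map (CommRingCat.ofHom (Away.map f (i.2 : A)))) := by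
    refine IsClosedImmersion.spec_of_surjective _ fun z => ?_
    obtain ⟨n, b, hb, rfl⟩ := Away.mk_surjective ℬ (Graded.map_mem f i.2.2) z
    obtain ⟨a, ha, rfl⟩ := hf _ _ hb
    exact ⟨Away.mk 𝒜 i.2.2 n a ha, Away.map_mk ..⟩
  have e := hp.isoPullback_inv_snd
  change IsClosedImmersion (pullback.snd _ (Proj.awayι 𝒜 (i.2 : A) i.2.2 hi))
  rw [← e]
  infer_instance

end Emb

theorem eval₂_scale {σ k R : Type} [CommRing k] [CommRing R] (φ : k →+* R) (v : σ → R) (c : R)
    {P : MvPolynomial σ k} {d : ℕ} (hP : P.IsHomogeneous d) :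
    eval₂ φ (fun i => v i * c) P = eval₂ φ v P * c ^ d := by
  rw [eval₂_eq, eval₂_eq, Finset.sum_mul]
  refine Finset.sum_congr rfl fun s hs => ?_
  rw [hP.degree_eq_sum_deg_support hs, mul_assoc, ← Finset.prod_pow_eq_pow_sum,
    ← Finset.prod_mul_distrib]
  simp only [mul_pow]

/-! ### the homogeneous coordinate ring -/

attribute [local instance] MvPolynomial.gradedAlgebra

variable (p : ℕ) [Fact p.Prime]

/-- the equation -/
def FF : MvPolynomial (Fin 3) (ZMod p) := X 1 ^ p * X 2 + X 1 * X 2 ^ p - X 0 ^ (p + 1)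

theorem FF_hom : (FF p).IsHomogeneous (p + 1) :=
  (((isHomogeneous_X_pow 1 p).mul (isHomogeneous_X _ 2)).add
    (add_comm 1 p ▸ (isHomogeneous_X _ 1).mul (isHomogeneous_X_pow 2 p))).sub
      (isHomogeneous_X_pow 0 _)

/-- the homogeneous coordinate ring -/
abbrev SS : Type := MvPolynomial (Fin 3) (ZMod p) ⧸ Ideal.span {FF p}

/-- its grading -/
def GS : ℕ → Submodule (ZMod p) (SS p) :=
  quotGr (homogeneousSubmodule (Fin 3) (ZMod p)) (Ideal.span {FF p})

instance : GradedAlgebra (GS p) :=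
  quotGraded _ _ (Ideal.homogeneous_span _ _ fun _ h => h ▸ ⟨p + 1, FF_hom p⟩)

/-- the coordinates -/
def xx (i : Fin 3) : SS p := Ideal.Quotient.mk _ (X i)

theorem xx_mem (i : Fin 3) : xx p i ∈ GS p 1 := ⟨X i, isHomogeneous_X _ i, rfl⟩

theorem xx_eq : xx p 1 ^ p * xx p 2 + xx p 1 * xx p 2 ^ p = xx p 0 ^ (p + 1) := by
  have : Ideal.Quotient.mk (Ideal.span {FF p}) (FF p) = 0 :=
    Ideal.Quotient.eq_zero_iff_mem.2 (Ideal.mem_span_singleton_self _)
  rw [FF, map_sub, sub_eq_zero, map_add, map_mul, map_mul, map_pow, map_pow, map_pow] at this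
  exact this

/-- the affine coordinates `x_l / x_i` -/
def ξ (i l : Fin 3) : Away (GS p) (xx p i) :=
  Away.mk (GS p) (xx_mem p i) 1 (xx p l) (xx_mem p l)

/-- the constants -/
def κ (f : SS p) : ZMod p →+* Away (GS p) f :=
  (fromZeroRingHom (GS p) _).comp (algebraMap (ZMod p) (GS p 0))

variable {p}

theorem mk_eq_eval (i : Fin 3) (a : Away (GS p) (xx p i)) :
    ∃ P : MvPolynomial (Fin 3) (ZMod p), eval₂ (κ p _) (ξ p i) P = a := by
  obtain ⟨n, _, ⟨P, hP, rfl⟩, rfl⟩ := Away.mk_surjective _ (xx_mem p i) a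
  refine ⟨P, val_injective _ ?_⟩
  let L := Localization.Away (xx p i)
  let c : L := Localization.mk 1 ⟨xx p i ^ 1, 1, rfl⟩
  let g : MvPolynomial (Fin 3) (ZMod p) →+* L := (algebraMap (SS p) L).comp (Ideal.Quotient.mk _)
  have h1 : (eval₂ (κ p _) (ξ p i) P).val = eval₂ (g.comp C) (fun l => g (X l) * c) P := by
    refine (eval₂_comp_left (algebraMap (Away (GS p) (xx p i)) L) _ _ _).trans ?_
    refine congrArg₂ (fun a b => eval₂ a b P) (RingHom.ext_zmod _ _) (funext fun l => ?_)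
    change Localization.mk _ _ = Localization.mk _ 1 * Localization.mk _ _
    rw [Localization.mk_mul, mul_one, one_mul]
    rfl
  have h2 : eval₂ (g.comp C) (fun l => g (X l)) P = g P := by
    have := eval₂_comp_left g C X P
    rw [eval₂_eta] at this
    exact this.symm
  rw [h1, eval₂_scale _ _ _ (show P.IsHomogeneous (n • 1) from hP), h2, Away.val_mk,
    Localization.mk_pow]
  change Localization.mk _ 1 * Localization.mk _ _ = _
  rw [Localization.mk_mul, one_pow, mul_one, one_mul]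
  congr 1
  ext
  simp

theorem ξ_self (i : Fin 3) : ξ p i i = 1 := by
  ext
  rw [ξ, Away.val_mk, val_one, ← Localization.mk_one, Localization.mk_eq_mk_iff,
    Localization.r_iff_exists]
  exact ⟨1, by simp⟩

theorem ξ_eq (i : Fin 3) :
    ξ p i 1 ^ p * ξ p i 2 + ξ p i 1 * ξ p i 2 ^ p = ξ p i 0 ^ (p + 1) := by
  ext
  let L := Localization.Away (xx p i)
  let c : L := Localization.mk 1 ⟨xx p i ^ 1, 1, rfl⟩
  have h : ∀ l, (ξ p i l).val = algebraMap (SS p) L (xx p l) * c := fun l => by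
    change Localization.mk _ _ = Localization.mk _ 1 * Localization.mk _ _
    rw [Localization.mk_mul, mul_one, one_mul]
    rfl
  have := congrArg (fun s => algebraMap (SS p) L s * c ^ (p + 1)) (xx_eq p)
  simp only [map_add, map_mul, map_pow] at this
  simp only [val_add, val_mul, val_pow, h, mul_pow, ← this]
  ring

/-- a point of the affine cone -/
def evS {R : Type} [CommRing R] (φ : ZMod p →+* R) (v : Fin 3 → R)
    (h : v 1 ^ p * v 2 + v 1 * v 2 ^ p = v 0 ^ (p + 1)) : SS p →+* R :=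
  Ideal.Quotient.lift _ (eval₂Hom φ v) fun a ha => by
    obtain ⟨b, rfl⟩ := Ideal.mem_span_singleton'.1 ha
    simp [FF, h]

theorem evS_xx {R : Type} [CommRing R] (φ : ZMod p →+* R) (v : Fin 3 → R) (h) (l : Fin 3) :
    evS φ v h (xx p l) = v l := by
  simp [evS, xx]

/-- evaluation of fractions -/
def evA {R : Type} [CommRing R] (ψ : SS p →+* R) (f : SS p) (w : R) (h : ψ f * w = 1) :
    Away (GS p) f →+* R :=
  (Localization.awayLift ψ f (isUnit_iff_exists_inv.2 ⟨w, h⟩)).comp (algebraMap _ _)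

theorem evA_mk {R : Type} [CommRing R] (ψ : SS p →+* R) {f : SS p} (w : R) (h : ψ f * w = 1)
    {d : ℕ} (hf : f ∈ GS p d) (n : ℕ) (a : SS p) (ha) :
    evA ψ f w h (Away.mk _ hf n a ha) = ψ a * w ^ n :=
  Localization.awayLift_mk ψ f a w h n

/-! ### the affine charts are smooth -/

variable (p) in
/-- the affine equation -/
def rel : Unit → MvPolynomial (Fin 2) (ZMod p) := fun _ => X 1 ^ p + X 1 - X 0 ^ (p + 1)

variable (p) in
/-- the affine coordinate ring -/
abbrev Rc : Type := MvPolynomial (Fin 2) (ZMod p) ⧸ Ideal.span (Set.range (rel p))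

theorem Rc_smooth : Algebra.IsStandardSmoothOfRelativeDimension 1 (ZMod p) (Rc p) := by
  let P := Algebra.PreSubmersivePresentation.naive (v := rel p) (fun _ => (1 : Fin 2))
    (Function.injective_of_subsingleton _)
  refine Algebra.SubmersivePresentation.isStandardSmoothOfRelativeDimension ⟨P, ?_⟩ ?_
  · rw [P.jacobian_eq_jacobiMatrix_det, Matrix.det_unique,
      Algebra.PreSubmersivePresentation.jacobiMatrix_naive]
    simp [rel]
  · simp [Algebra.Presentation.dimension]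

theorem chart_smooth (i j : Fin 3) (hij : (i = 1 ∧ j = 2) ∨ (i = 2 ∧ j = 1)) :
    (κ p (xx p i)).IsStandardSmoothOfRelativeDimension 1 := by
  have hξ : ξ p i j ^ p + ξ p i j = ξ p i 0 ^ (p + 1) := by
    have := ξ_eq (p := p) i
    rcases hij with ⟨rfl, rfl⟩ | ⟨rfl, rfl⟩
    · rwa [ξ_self, one_pow, one_mul, one_mul, add_comm] at this
    · rwa [ξ_self, one_pow, mul_one, mul_one] at this
  let Φ : Rc p →+* Away (GS p) (xx p i) :=
    Ideal.Quotient.lift _ (eval₂Hom (κ p _) ![ξ p i 0, ξ p i j]) fun a ha => by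
      refine RingHom.mem_ker.1 (Ideal.span_le.2 ?_ ha)
      rintro _ ⟨_, rfl⟩
      simp [rel, hξ]
  have hΦ : ∀ l, Φ (Ideal.Quotient.mk _ (X l)) = ![ξ p i 0, ξ p i j] l := fun l => by
    simp [Φ]
  let v : Fin 3 → Rc p := fun l => if l = 0 then Ideal.Quotient.mk _ (X 0) else
    if l = i then 1 else Ideal.Quotient.mk _ (X 1)
  have h0 : Ideal.Quotient.mk (Ideal.span (Set.range (rel p))) (X 1) ^ p +
      Ideal.Quotient.mk _ (X 1) = Ideal.Quotient.mk _ (X 0) ^ (p + 1) := by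
    have : Ideal.Quotient.mk (Ideal.span (Set.range (rel p))) (rel p ()) = 0 :=
      Ideal.Quotient.eq_zero_iff_mem.2 (Ideal.subset_span ⟨(), rfl⟩)
    rwa [rel, map_sub, sub_eq_zero, map_add, map_pow, map_pow] at this
  have hv : v 1 ^ p * v 2 + v 1 * v 2 ^ p = v 0 ^ (p + 1) := by
    rcases hij with ⟨rfl, rfl⟩ | ⟨rfl, rfl⟩ <;> simp [v, ← h0, add_comm]
  have hi : evS (algebraMap _ _) v hv (xx p i) * 1 = 1 := by
    rw [evS_xx]
    rcases hij with ⟨rfl, rfl⟩ | ⟨rfl, rfl⟩ <;> simp [v]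
  let Ψ := evA (evS (algebraMap _ _) v hv) (xx p i) 1 hi
  have hΨ : ∀ l, Ψ (ξ p i l) = v l := fun l => by
    rw [ξ, evA_mk, evS_xx, one_pow, mul_one]
  have h1 : Ψ.comp Φ = RingHom.id _ := by
    refine Ideal.Quotient.ringHom_ext (MvPolynomial.ringHom_ext' (RingHom.ext_zmod _ _) fun l => ?_)
    rw [RingHom.comp_apply, RingHom.comp_apply, hΦ]
    rcases hij with ⟨rfl, rfl⟩ | ⟨rfl, rfl⟩ <;> fin_cases l <;> simp [hΨ, v]
  have h2 : Function.Bijective Φ := by
    refine ⟨Function.LeftInverse.injective (g := Ψ) fun x => DFunLike.congr_fun h1 x, fun a => ?_⟩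
    obtain ⟨P, rfl⟩ := mk_eq_eval i a
    refine ⟨eval₂ (algebraMap _ _) v P, (eval₂_comp_left _ _ _ _).trans ?_⟩
    congr 1
    · exact RingHom.ext_zmod _ _
    · funext l
      rcases hij with ⟨rfl, rfl⟩ | ⟨rfl, rfl⟩ <;> fin_cases l <;> simp [hΦ, v, ξ_self]
  have h3 := (RingHom.IsStandardSmoothOfRelativeDimension.equiv
    (RingEquiv.ofBijective Φ h2)).comp
      ((RingHom.isStandardSmoothOfRelativeDimension_algebraMap 1).2 (Rc_smooth (p := p)))
  rwa [RingHom.ext_zmod (RingHom.comp _ _) (κ p _)] at h3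

end

end Pool.Agent.MP_55d974_ag

end MrgPart1

-- ======== part 2: formerly Pool.Agent.MP_55d974_ag.Tools
section MrgPart2

section
/-!
The ring of algebraic power series over a countable field.
-/

open IsLocalRing PowerSeries

namespace Pool.Agent.MP_55d974_ag

variable (k : Type) [Field k]

/-- power series that are algebraic over the polynomial ring -/
noncomputable abbrev Alg : Subalgebra (Polynomial k) k⟦X⟧ :=
  Subalgebra.algebraicClosure (Polynomial k) k⟦X⟧

theorem X_alg : IsAlgebraic (Polynomial k) (X : k⟦X⟧) := by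
  have := isAlgebraic_algebraMap (R := Polynomial k) (A := k⟦X⟧) Polynomial.X
  simpa [PowerSeries.algebraMap_apply'] using this

/-- the uniformiser -/
noncomputable def tt : Alg k := ⟨X, X_alg k⟩

variable {k}

theorem Alg_dvd {a b : Alg k} (ha : a ≠ 0) (h : a.1 ∣ b.1) : a ∣ b := by
  obtain ⟨c, hc⟩ := h
  have hc' : IsAlgebraic (Polynomial k) c :=
    IsAlgebraic.of_mul (mem_nonZeroDivisors_of_ne_zero fun h0 => ha (Subtype.ext h0)) a.2
      (hc ▸ b.2)
  exact ⟨⟨c, hc'⟩, Subtype.ext hc⟩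

theorem Alg_unit {a : Alg k} : IsUnit a ↔ IsUnit a.1 := by
  refine ⟨fun h => h.map (Alg k).val, fun h => ?_⟩
  exact isUnit_of_dvd_one (Alg_dvd (fun h0 => h.ne_zero (congrArg Subtype.val h0))
    (isUnit_iff_dvd_one.1 h))

theorem tt_ne : tt k ≠ 0 := fun h => X_ne_zero (congrArg Subtype.val h)

theorem tt_irr : Irreducible (tt k) := by
  refine ⟨fun h => X_irreducible.not_isUnit (Alg_unit.1 h), fun a b h => ?_⟩
  rw [Alg_unit, Alg_unit]
  exact X_irreducible.isUnit_or_isUnit (congrArg Subtype.val h)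

instance : IsDiscreteValuationRing (Alg k) := by
  refine IsDiscreteValuationRing.ofHasUnitMulPowIrreducibleFactorization ⟨tt k, tt_irr, ?_⟩
  intro x hx
  obtain ⟨n, hn⟩ := IsDiscreteValuationRing.associated_pow_irreducible
    (fun h0 => hx (Subtype.ext h0)) (X_irreducible (R := k))
  exact ⟨n, associated_of_dvd_dvd (Alg_dvd (pow_ne_zero _ tt_ne) hn.symm.dvd) (Alg_dvd hx hn.dvd)⟩

theorem Alg_max {a : Alg k} : a ∈ maximalIdeal (Alg k) ↔ a.1 ∈ Ideal.span {(X : k⟦X⟧)} := by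
  rw [← maximalIdeal_eq_span_X, mem_maximalIdeal, mem_maximalIdeal, mem_nonunits_iff,
    mem_nonunits_iff, Alg_unit]

instance : HenselianLocalRing (Alg k) where
  is_henselian f hf a₀ h1 h2 := by
    let j : Alg k →+* k⟦X⟧ := algebraMap _ _
    have e : ∀ (g : Polynomial (Alg k)) (a : Alg k), (g.map j).eval a.1 = (g.eval a).1 :=
      fun g a => Polynomial.eval_map_algebraMap g _ |>.trans
        (Polynomial.aeval_algebraMap_apply_eq_algebraMap_eval a g)
    obtain ⟨a, ha, ha'⟩ := HenselianRing.is_henselian (I := Ideal.span {(X : k⟦X⟧)}) (f.map j)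
      (hf.map j) a₀.1 (by rw [e]; exact Alg_max.1 h1)
      (by rw [Polynomial.derivative_map, e]; exact (Alg_unit.1 h2).map _)
    have hi : IsIntegral (Alg k) a := ⟨f, hf, by rw [← Polynomial.eval_map]; exact ha⟩
    refine ⟨⟨a, hi.trans_isAlgebraic (Polynomial k)⟩, Subtype.ext ?_, Alg_max.2 ha'⟩
    rw [← e]
    exact ha

instance [Countable k] : Countable (Alg k) := by
  have : Countable (AddMonoidAlgebra k ℕ) := AddMonoidAlgebra.coeff_injective.countable
  have : Countable (Polynomial k) := Polynomial.toFinsupp_injective.countable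
  have : Module.IsTorsionFree (Polynomial k) k⟦X⟧ :=
    Module.isTorsionFree_iff_algebraMap_injective.2 (Polynomial.coe_injective k)
  exact (Algebraic.countable (Polynomial k) k⟦X⟧).to_subtype

end Pool.Agent.MP_55d974_ag

end

section
/-!
A scheme that is smooth over a regular ring has regular local rings.
-/

open AlgebraicGeometry CategoryTheory IsLocalRing

namespace Pool.Agent.MP_55d974_ag

theorem reg_of_etale (P B : Type) [CommRing P] [CommRing B] [Algebra P B] [Algebra.Etale P B]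
    [IsRegularRing P] : IsRegularRing B := by
  have : IsNoetherianRing B := Algebra.FiniteType.isNoetherianRing P B
  refine isRegularRing_iff.2 fun q _ => ?_
  let p : Ideal P := q.under P
  let := Localization.AtPrime.algebraOfLiesOver p q
  have h1 := ((Algebra.isUnramifiedAt_iff_map_eq P p q).1 inferInstance).2
  have h2 : (maximalIdeal (Localization.AtPrime p)).map
      (algebraMap (Localization.AtPrime p) (Localization.AtPrime q)) = maximalIdeal _ := by
    rw [← h1, ← Localization.AtPrime.map_eq_maximalIdeal, Ideal.map_map,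
      ← IsScalarTower.algebraMap_eq]
  refine IsRegularLocalRing.of_spanFinrank_maximalIdeal_le _ ?_
  have h3 := Ideal.spanFinrank_map_le_of_fg
    (algebraMap (Localization.AtPrime p) (Localization.AtPrime q))
    (IsNoetherian.noetherian (maximalIdeal (Localization.AtPrime p)))
  rw [h2] at h3
  have h4 : ((maximalIdeal (Localization.AtPrime p)).spanFinrank : WithBot ℕ∞) =
      ringKrullDim (Localization.AtPrime p) := IsRegularLocalRing.spanFinrank_maximalIdeal
  rw [IsLocalization.AtPrime.ringKrullDim_eq_height p] at h4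
  rw [IsLocalization.AtPrime.ringKrullDim_eq_height q,
    Ideal.height_eq_height_add_of_liesOver_of_hasGoingDown p q]
  refine le_trans (Nat.cast_le.2 h3) (h4.le.trans ?_)
  exact WithBot.coe_le_coe.2 le_self_add

theorem reg_of_standardSmooth {R B : Type} [CommRing R] [CommRing B] {φ : R →+* B}
    (h : φ.IsStandardSmooth) [IsRegularRing R] : IsRegularRing B := by
  obtain ⟨n, g, -, hg⟩ := h.exists_etale_mvPolynomial
  let := g.toAlgebra
  have : Algebra.Etale (MvPolynomial (Fin n) R) B := hg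
  exact reg_of_etale (MvPolynomial (Fin n) R) B

theorem reg_of_smooth {R B : Type} [CommRing R] [CommRing B] {φ : R →+* B}
    (h : φ.Smooth) [IsRegularRing R] (q : Ideal B) [q.IsPrime] :
    IsRegularLocalRing (Localization.AtPrime q) := by
  obtain ⟨s, hs, h⟩ := RingHom.smooth_iff_locally_isStandardSmooth.1 h
  obtain ⟨t, ht, hq⟩ : ∃ t ∈ s, t ∉ q := by
    by_contra hc
    push Not at hc
    exact (inferInstance : q.IsPrime).ne_top (top_le_iff.1 (hs ▸ Ideal.span_le.2 hc))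
  have := reg_of_standardSmooth (h t ht)
  have hd : Disjoint (Submonoid.powers t : Set B) q :=
    (Ideal.disjoint_powers_iff_notMem t (inferInstance : q.IsPrime).isRadical).2 hq
  let q' := q.map (algebraMap B (Localization.Away t))
  have : q'.IsPrime := IsLocalization.isPrime_of_isPrime_disjoint (Submonoid.powers t) _ q ‹_› hd
  have e : q'.comap (algebraMap B (Localization.Away t)) = q :=
    IsLocalization.under_map_of_isPrime_disjoint (Submonoid.powers t) _ ‹_› hd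
  have h1 := IsLocalization.isLocalization_atPrime_localization_atPrime (Submonoid.powers t) q'
  have h2 : IsLocalization q.primeCompl (Localization.AtPrime q') := by
    have : q.primeCompl = (q'.comap (algebraMap B (Localization.Away t))).primeCompl := by
      ext x
      simp only [Ideal.mem_primeCompl_iff, e]
    rw [this]
    exact h1
  exact IsRegularLocalRing.of_ringEquiv
    (IsLocalization.algEquiv q.primeCompl (Localization.AtPrime q') _).toRingEquiv

theorem regular_stalk {A : Type} [CommRing A] [IsRegularRing A] {X : Scheme.{0}}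
    (f : X ⟶ Spec (.of A)) [Smooth f] (x : X) : IsRegularLocalRing (X.presheaf.stalk x) := by
  obtain ⟨_, ⟨V, hV, rfl⟩, hx, -⟩ :=
    X.isBasis_affineOpens.exists_subset_of_mem_open (Set.mem_univ x) isOpen_univ
  have h := f.smooth_appLE (isAffineOpen_top _) hV le_top
  have : IsRegularRing Γ(Spec (.of A), ⊤) :=
    IsRegularRing.of_ringEquiv (Scheme.ΓSpecIso (.of A)).symm.commRingCatIsoToRingEquiv
  have h1 := reg_of_smooth h (hV.primeIdealOf ⟨x, hx⟩).asIdeal
  let := X.presheaf.algebra_section_stalk ⟨x, hx⟩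
  have := hV.isLocalization_stalk ⟨x, hx⟩
  exact IsRegularLocalRing.of_ringEquiv
    (IsLocalization.algEquiv (hV.primeIdealOf ⟨x, hx⟩).asIdeal.primeCompl
      (Localization.AtPrime (hV.primeIdealOf ⟨x, hx⟩).asIdeal) (X.presheaf.stalk x)).toRingEquiv

end Pool.Agent.MP_55d974_ag

end

section
/-!
Pull-back of sections, Frobenius, countability.
-/

open AlgebraicGeometry CategoryTheory Limits TopologicalSpace Opposite

namespace Pool.Agent.MP_55d974_ag

noncomputable section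

variable {X Y Z T : Scheme.{0}}

/-- pull-back of sections -/
abbrev pb (m : Y ⟶ T) {U : T.Opens} {W : Y.Opens} (e : W ≤ m ⁻¹ᵁ U) : Γ(T, U) →+* Γ(Y, W) :=
  (m.appLE U W e).hom

theorem pb_pb {h : Z ⟶ Y} {g : Y ⟶ T} {m : Z ⟶ T} (hm : h ≫ g = m) {U : T.Opens} {V : Y.Opens}
    {W : Z.Opens} (e₁ : V ≤ g ⁻¹ᵁ U) (e₂ : W ≤ h ⁻¹ᵁ V) (e : W ≤ m ⁻¹ᵁ U) (s : Γ(T, U)) :
    pb h e₂ (pb g e₁ s) = pb m e s := by
  subst hm
  exact congrArg (fun φ => φ.hom s) (Scheme.Hom.appLE_comp_appLE h g U V W e₁ e₂)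

theorem pb_res (m : Y ⟶ T) {U U' : T.Opens} {W : Y.Opens} (i : op U' ⟶ op U) (e : W ≤ m ⁻¹ᵁ U)
    (e' : W ≤ m ⁻¹ᵁ U') (s : Γ(T, U')) : pb m e ((T.presheaf.map i).hom s) = pb m e' s :=
  congrArg (fun φ => φ.hom s) (m.map_appLE e i)

/-- pull-back to an affine scheme -/
def gl {R : Type} [CommRing R] (m : Spec (.of R) ⟶ T) {U : T.Opens} (e : ⊤ ≤ m ⁻¹ᵁ U) :
    Γ(T, U) →+* R := (Scheme.ΓSpecIso (.of R)).hom.hom.comp (pb m e)

variable {A R R' : Type} [CommRing A] [CommRing R] [CommRing R']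

theorem gl_pb {h : Spec (.of R) ⟶ Y} {g : Y ⟶ T} {m : Spec (.of R) ⟶ T} (hm : h ≫ g = m)
    {U : T.Opens} {V : Y.Opens} (e₁ : V ≤ g ⁻¹ᵁ U) (e₂ : ⊤ ≤ h ⁻¹ᵁ V) (e : ⊤ ≤ m ⁻¹ᵁ U)
    (s : Γ(T, U)) : gl h e₂ (pb g e₁ s) = gl m e s :=
  congrArg (Scheme.ΓSpecIso (.of R)).hom.hom (pb_pb hm e₁ e₂ e s)

theorem gl_res (m : Spec (.of R) ⟶ T) {U U' : T.Opens} (i : op U' ⟶ op U) (e : ⊤ ≤ m ⁻¹ᵁ U)
    (e' : ⊤ ≤ m ⁻¹ᵁ U') (s : Γ(T, U')) : gl m e ((T.presheaf.map i).hom s) = gl m e' s :=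
  congrArg (Scheme.ΓSpecIso (.of R)).hom.hom (pb_res m i e e' s)

theorem pb_top (m : Y ⟶ T) (e : ⊤ ≤ m ⁻¹ᵁ ⊤) : pb m e = m.appTop.hom :=
  congrArg CommRingCat.Hom.hom m.appLE_eq_app

theorem gl_map (φ : R →+* R') {m : Spec (.of R) ⟶ T} {m' : Spec (.of R') ⟶ T}
    (hm : Spec.map (CommRingCat.ofHom φ) ≫ m = m') {U : T.Opens} (e : ⊤ ≤ m ⁻¹ᵁ U)
    (e' : ⊤ ≤ m' ⁻¹ᵁ U) (s : Γ(T, U)) : gl m' e' s = φ (gl m e s) := by
  rw [← gl_pb hm e le_top, gl, pb_top]
  exact congrArg (fun ψ => ψ.hom (pb m e s)) (Scheme.ΓSpecIso_naturality (CommRingCat.ofHom φ))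

/-- the global section attached to an element -/
def cst : A →+* Γ(Spec (.of A), ⊤) := (Scheme.ΓSpecIso (.of A)).inv.hom

theorem pb_cst (φ : A →+* R) (e) (a : A) :
    pb (Spec.map (CommRingCat.ofHom φ)) (W := ⊤) e (cst a) = cst (φ a) := by
  rw [pb_top]
  exact (congrArg (fun ψ => ψ.hom a) (Scheme.ΓSpecIso_inv_naturality (CommRingCat.ofHom φ))).symm

theorem cst_surj (s : Γ(Spec (.of A), ⊤)) : ∃ a, cst a = s :=
  ⟨(Scheme.ΓSpecIso (.of A)).hom.hom s, Iso.hom_inv_id_apply _ _⟩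

theorem gl_cst (φ : A →+* R) {m : Spec (.of R) ⟶ Spec (.of A)}
    (hm : m = Spec.map (CommRingCat.ofHom φ)) (e : ⊤ ≤ m ⁻¹ᵁ ⊤) (a : A) :
    gl m e (cst a) = φ a := by
  subst hm
  rw [gl, RingHom.comp_apply, pb_cst]
  exact Iso.inv_hom_id_apply _ _

/-! ### Frobenius -/

variable (p : ℕ) [hp : Fact p.Prime]

/-- the `p`-th power map of a ring killed by `p` -/
def frobR (R : Type) [CommRing R] (h : (p : R) = 0) : R →+* R where
  toFun x := x ^ p
  map_one' := one_pow p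
  map_mul' x y := mul_pow x y p
  map_zero' := zero_pow hp.out.ne_zero
  map_add' x y := by rw [add_pow_prime_eq hp.out, h]; simp

omit hp in
theorem p_zero (h : (p : Γ(Y, ⊤)) = 0) (U : Y.Opens) : (p : Γ(Y, U)) = 0 := by
  rw [← map_natCast (Y.presheaf.map (homOfLE le_top).op).hom, h, map_zero]

/-- the absolute Frobenius -/
def frob (Y : Scheme.{0}) (h : (p : Γ(Y, ⊤)) = 0) : Y ⟶ Y where
  base := 𝟙 _
  c :=
    { app := fun U => CommRingCat.ofHom (frobR p Γ(Y, U.unop) (p_zero p h _))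
      naturality := fun U V i => by
        ext x
        exact (map_pow (Y.presheaf.map i).hom x p).symm }
  prop x := ⟨fun a ha => by
    obtain ⟨U, hx, s, rfl⟩ := Y.presheaf.exists_germ_eq a
    erw [PresheafedSpace.stalkMap_germ_apply] at ha
    have : IsUnit ((Y.presheaf.germ U x hx).hom (s ^ p)) := ha
    rwa [map_pow, isUnit_pow_iff hp.out.ne_zero] at this⟩

theorem pb_frob (h : (p : Γ(Y, ⊤)) = 0) (U : Y.Opens) (s : Γ(Y, U)) :
    pb (frob p Y h) (U := U) (W := U) le_rfl s = s ^ p := by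
  change (Y.presheaf.map (𝟙 _)).hom (s ^ p) = _
  rw [Y.presheaf.map_id]
  rfl

theorem frob_comm (h : (p : Γ(Y, ⊤)) = 0) (h' : (p : Γ(T, ⊤)) = 0) (g : Y ⟶ T) :
    frob p Y h ≫ g = g ≫ frob p T h' := by
  refine Scheme.Hom.ext rfl fun U => ?_
  ext s
  change (Y.presheaf.map (𝟙 _)).hom ((g.app U).hom s ^ p) = (g.app U).hom (s ^ p)
  rw [Y.presheaf.map_id]
  exact (map_pow (g.app U).hom s p).symm

theorem frob_spec (h : (p : Γ(Y, ⊤)) = 0) (g : Y ⟶ Spec (.of R)) {φ ψ : A →+* R}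
    (e : ∀ a, φ a ^ p = ψ a ^ p) : frob p Y h ≫ g ≫ Spec.map (CommRingCat.ofHom φ) =
      frob p Y h ≫ g ≫ Spec.map (CommRingCat.ofHom ψ) := by
  refine ext_of_isAffine ?_
  ext s
  obtain ⟨a, rfl⟩ := cst_surj s
  have : ∀ χ : A →+* R, (frob p Y h ≫ g ≫ Spec.map (CommRingCat.ofHom χ)).appTop.hom (cst a) =
      g.appTop.hom (cst (χ a ^ p)) := fun χ => by
    rw [map_pow, map_pow, ← pb_cst χ le_top, pb_top]
    rfl
  exact (this φ).trans (e a ▸ (this ψ).symm)

theorem frob_pre {h : (p : Γ(Y, ⊤)) = 0} {a b : Y ⟶ T} (e : frob p Y h ≫ a = frob p Y h ≫ b)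
    (U : T.Opens) : a ⁻¹ᵁ U = b ⁻¹ᵁ U := by
  have := congrArg (fun m : Y ⟶ T => m ⁻¹ᵁ U) e
  exact this

theorem frob_pow {h : (p : Γ(Y, ⊤)) = 0} {a b : Y ⟶ T} (e : frob p Y h ≫ a = frob p Y h ≫ b)
    {U : T.Opens} {W : Y.Opens} (e₁ : W ≤ a ⁻¹ᵁ U) (e₂ : W ≤ b ⁻¹ᵁ U) (s : Γ(T, U)) :
    pb a e₁ s ^ p = pb b e₂ s ^ p := by
  have e₃ : W ≤ (frob p Y h ≫ b) ⁻¹ᵁ U := e₂
  have h1 := pb_pb (h := frob p Y h) (V := W) (W := W) e e₁ le_rfl e₃ s
  have h2 := pb_pb (h := frob p Y h) (V := W) (W := W) rfl e₂ le_rfl e₃ s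
  exact (pb_frob p h W _).symm.trans ((h1.trans h2.symm).trans (pb_frob p h W _))

/-! ### countability -/

theorem countable_of_finiteType [Countable A] {φ : A →+* R} (h : φ.FiniteType) : Countable R := by
  let := φ.toAlgebra
  obtain ⟨n, g, hg⟩ := Algebra.FiniteType.iff_quotient_mvPolynomial''.1 h
  have : Countable (MvPolynomial (Fin n) A) := AddMonoidAlgebra.coeff_injective.countable
  exact hg.countable

theorem exists_basis [Countable A] (f : X ⟶ Spec (.of A)) [LocallyOfFiniteType f] [CompactSpace X]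
    [X.IsSeparated] : ∃ B : Set X.Opens, B.Countable ∧
      (∀ (x : X) (W : X.Opens), x ∈ W → ∃ b ∈ B, x ∈ b ∧ b ≤ W) ∧
      ∀ b ∈ B, ∀ b' ∈ B, Countable Γ(X, b ⊓ b') := by
  have h0 : Countable Γ(Spec (.of A), ⊤) := Function.Surjective.countable (f := cst) cst_surj
  have hc : ∀ U : X.Opens, IsAffineOpen U → Countable Γ(X, U) := fun U hU =>
    countable_of_finiteType (f.finiteType_appLE (isAffineOpen_top _) hU le_top)
  obtain ⟨L, hL⟩ := isCompact_univ.elim_finite_subcover (fun U : X.affineOpens => (U.1 : Set X))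
    (fun U => U.1.isOpen) fun x _ => by
      obtain ⟨_, ⟨V, hV, rfl⟩, hx, -⟩ :=
        X.isBasis_affineOpens.exists_subset_of_mem_open (Set.mem_univ x) isOpen_univ
      exact Set.mem_iUnion.2 ⟨⟨V, hV⟩, hx⟩
  have : ∀ U : L, Countable Γ(X, U.1.1) := fun U => hc _ U.1.2
  refine ⟨Set.range fun q : Σ U : L, Γ(X, U.1.1) => X.basicOpen q.2, Set.countable_range _,
    fun x W hx => ?_, ?_⟩
  · obtain ⟨U, hU, hxU⟩ := Set.mem_iUnion₂.1 (hL (Set.mem_univ x))
    obtain ⟨s, h1, h2⟩ := U.2.exists_basicOpen_le ⟨x, hx⟩ hxU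
    exact ⟨_, ⟨⟨⟨U, hU⟩, s⟩, rfl⟩, h2, h1⟩
  · rintro _ ⟨⟨U, s⟩, rfl⟩ _ ⟨⟨V, t⟩, rfl⟩
    exact hc _ ((U.1.2.basicOpen s).inf (V.1.2.basicOpen t))

/-! ### the diagonal argument -/

theorem diag {H : ℕ → Type} [∀ n, AddCommGroup (H n)] (t : ∀ n, H (n + 1) →+ H n) {C : Type}
    [Countable C] (r : ∀ n, C → H n) (q : ℕ) (N : ℕ → ℕ) (hN : StrictMono N) (b : ℕ → ∀ n, H n)
    (h1 : ∀ i n, t n (b i (n + 1)) = b i n) (h2 : ∀ i n, n < N i → b i n = 0)
    (h3 : ∀ i z, b i (N i) ≠ q • z) :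
    ∃ y : ∀ n, H n, (∀ n, t n (y (n + 1)) = y n) ∧ ∀ c, ∃ n, ∀ z, r n c - y n ≠ q • z := by
  classical
  let y : (ℕ → Prop) → ∀ n, H n := fun S n => ∑ i ∈ Finset.range (n + 1), if S i then b i n else 0
  have hy : ∀ S n, t n (y S (n + 1)) = y S n := fun S n => by
    simp only [y, map_sum, apply_ite (t n), h1, map_zero]
    rw [Finset.sum_range_succ, h2 (n + 1) n (hN.le_apply (x := n + 1)), ite_self, add_zero]
  by_contra hc
  push Not at hc
  choose c hc using fun S => hc (y S) (hy S)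
  have : Uncountable (ℕ → Prop) := ⟨fun hc => by
    obtain ⟨g, hg⟩ := exists_surjective_nat (ℕ → Prop)
    exact Function.cantor_surjective g hg⟩
  obtain ⟨S, S', e, hne⟩ := Function.not_injective_iff.1 (not_injective_uncountable_countable c)
  have hex : ∃ i, ¬ (S i ↔ S' i) := by
    by_contra h
    push Not at h
    exact hne (funext fun i => propext (h i))
  let i := Nat.find hex
  obtain ⟨z, hz⟩ := hc S (N i)
  obtain ⟨z', hz'⟩ := hc S' (N i)
  have hd : y S (N i) - y S' (N i) =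
      (if S i then b i (N i) else 0) - if S' i then b i (N i) else 0 := by
    simp only [y]
    rw [← Finset.sum_sub_distrib]
    refine Finset.sum_eq_single_of_mem i
      (Finset.mem_range.2 (Nat.lt_succ_of_le hN.le_apply)) fun j _ hj => ?_
    rcases lt_or_gt_of_ne hj with h | h
    · rw [if_congr (not_not.1 (Nat.find_min hex h)) rfl rfl, sub_self]
    · rw [h2 j _ (hN h), ite_self, ite_self, sub_self]
  have he : y S (N i) - y S' (N i) = q • (z' - z) := by
    rw [smul_sub, ← hz, ← hz', e]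
    abel
  have hi : ¬ (S i ↔ S' i) := Nat.find_spec hex
  rw [he] at hd
  by_cases h : S i
  · rw [if_pos h, if_neg (fun h' => hi ⟨fun _ => h', fun _ => h⟩), sub_zero] at hd
    exact h3 i _ hd.symm
  · rw [if_neg h, if_pos (by tauto), zero_sub] at hd
    exact h3 i (-(z' - z)) (by rw [smul_neg, hd, neg_neg])

end

end Pool.Agent.MP_55d974_ag

end

end MrgPart2

-- ======== part 3: formerly Pool.Agent.MP_55d974_ag.Model
section MrgPart3

section
/-!
The constant family of curves.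
-/

open AlgebraicGeometry CategoryTheory Limits TopologicalSpace Opposite HomogeneousLocalization

namespace Pool.Agent.MP_55d974_ag

noncomputable section

attribute [local instance] MvPolynomial.gradedAlgebra

variable (p : ℕ) [hp : Fact p.Prime]

/-- the curve -/
abbrev X0 : Scheme.{0} := Proj (GS p)

/-- its structure morphism -/
def s0 : X0 p ⟶ Spec (.of (ZMod p)) :=
  Proj.toSpecZero (GS p) ≫ Spec.map (CommRingCat.ofHom (algebraMap (ZMod p) (GS p 0)))

omit hp in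
theorem zmod_ext {Z : Scheme.{0}} (a b : Z ⟶ Spec (.of (ZMod p))) : a = b := by
  refine ext_of_isAffine ?_
  rw [← cancel_epi (Scheme.ΓSpecIso (.of (ZMod p))).inv]
  exact CommRingCat.hom_ext (RingHom.ext_zmod _ _)

/-- the standard open sets -/
def UU (i : Fin 3) : (X0 p).Opens := Proj.basicOpen (GS p) (xx p i)

/-- the standard charts -/
def chart (i : Fin 3) : Spec (.of (Away (GS p) (xx p i))) ⟶ X0 p :=
  Proj.awayι (GS p) (xx p i) (xx_mem p i) one_pos

theorem cover : ⊤ = UU p 2 ⊔ UU p 1 := by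
  have h : ⨆ i, UU p i = ⊤ := by
    refine Proj.iSup_basicOpen_eq_top' (GS p) (xx p) (fun i => ⟨1, xx_mem p i⟩) ?_
    refine top_le_iff.1 fun s hs => ?_
    clear hs
    obtain ⟨P, rfl⟩ := Ideal.Quotient.mk_surjective s
    induction P using MvPolynomial.induction_on with
    | C a => exact Subalgebra.algebraMap_mem _ (algebraMap (ZMod p) (GS p 0) a)
    | add P Q hP hQ => exact add_mem hP hQ
    | mul_X P i hP => exact mul_mem hP (Algebra.subset_adjoin ⟨i, rfl⟩)
  refine le_antisymm (fun x _ => ?_) le_top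
  by_contra hx
  have h2 : xx p 2 ∈ x.asHomogeneousIdeal := not_not.1 fun h => hx (Or.inl h)
  have h1 : xx p 1 ∈ x.asHomogeneousIdeal := not_not.1 fun h => hx (Or.inr h)
  have h0 : xx p 0 ∈ x.asHomogeneousIdeal := by
    refine x.isPrime.mem_of_pow_mem (p + 1) ?_
    rw [← xx_eq]
    exact add_mem (Ideal.mul_mem_left _ _ h2) (Ideal.mul_mem_right _ _ h1)
  obtain ⟨i, hi⟩ := Opens.mem_iSup.1 (h.ge (Set.mem_univ x))
  fin_cases i
  exacts [hi h0, hi h1, hi h2]

theorem s0_smooth : SmoothOfRelativeDimension 1 (s0 p) := by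
  have key : ∀ i j : Fin 3, (i = 1 ∧ j = 2) ∨ (i = 2 ∧ j = 1) →
      SmoothOfRelativeDimension 1 ((UU p i).ι ≫ s0 p) := fun i j hij => by
    have h : SmoothOfRelativeDimension 1 (Spec.map (CommRingCat.ofHom (κ p (xx p i)))) :=
      (HasRingHomProperty.Spec_iff (P := @SmoothOfRelativeDimension 1)).2
        (RingHom.locally_of RingHom.isStandardSmoothOfRelativeDimension_respectsIso _
          (chart_smooth i j hij))
    rw [zmod_ext p ((UU p i).ι ≫ s0 p) ((Proj.basicOpenIsoSpec (GS p) _ (xx_mem p i) one_pos).hom ≫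
      Spec.map (CommRingCat.ofHom (κ p (xx p i))))]
    exact smoothOfRelativeDimension_comp 0 1 _ _
  refine IsZariskiLocalAtSource.of_iSup_eq_top (P := @SmoothOfRelativeDimension 1)
    (fun b : Bool => UU p (if b then 2 else 1)) (by rw [iSup_bool_eq]; exact (cover p).symm)
    fun b => ?_
  cases b
  · exact key 1 2 (Or.inl ⟨rfl, rfl⟩)
  · exact key 2 1 (Or.inr ⟨rfl, rfl⟩)

instance : CompactSpace (X0 p) := by
  refine ⟨?_⟩
  have h : (Set.univ : Set (X0 p)) = (UU p 2 : Set (X0 p)) ∪ UU p 1 :=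
    congrArg (fun W : (X0 p).Opens => (W : Set (X0 p))) (cover p)
  rw [h]
  exact (Proj.isAffineOpen_basicOpen (GS p) _ (xx_mem p 2) one_pos).isCompact.union
    (Proj.isAffineOpen_basicOpen (GS p) _ (xx_mem p 1) one_pos).isCompact

/-- the graded map from the integral polynomial ring -/
def grMap : MvPolynomial.homogeneousSubmodule (Fin 3) ℤ →+*ᵍ GS p where
  toRingHom := (Ideal.Quotient.mk _).comp (MvPolynomial.map (Int.castRingHom (ZMod p)))
  map_mem h := ⟨_, MvPolynomial.IsHomogeneous.map h _, rfl⟩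

theorem grMap_surj : ∀ d, ∀ b ∈ GS p d, ∃ a ∈ MvPolynomial.homogeneousSubmodule (Fin 3) ℤ d,
    grMap p a = b := by
  rintro d _ ⟨P, hP, rfl⟩
  obtain ⟨Q, rfl⟩ := MvPolynomial.map_surjective (Int.castRingHom (ZMod p))
    (ZMod.ringHom_surjective _) P
  refine ⟨MvPolynomial.homogeneousComponent d Q, MvPolynomial.homogeneousComponent_mem d Q, ?_⟩
  refine congrArg (Ideal.Quotient.mk _) (MvPolynomial.ext _ _ fun s => ?_)
  rw [MvPolynomial.coeff_map, MvPolynomial.coeff_homogeneousComponent]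
  split_ifs with h
  · rw [MvPolynomial.coeff_map]
  · rw [map_zero]
    exact (MvPolynomial.IsHomogeneous.coeff_eq_zero hP h).symm

variable {A : Type} [CommRing A]

theorem isProjective (S : Scheme.{0}) : IsProjective (prod.snd : X0 p ⨯ S ⟶ S) :=
  ⟨2, prod.map (Proj.map (grMap p) (irrelevant_le _ (grMap_surj p))) (𝟙 S),
    MorphismProperty.of_isPullback (P := @IsClosedImmersion) (IsPullback.of_prod_fst_with_id _ _)
      (isClosedImmersion_map _ (grMap_surj p)), by simp⟩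

theorem isPullback_prod {S : Scheme.{0}} (g : S ⟶ Spec (.of (ZMod p))) :
    IsPullback (prod.fst : X0 p ⨯ S ⟶ _) prod.snd (s0 p) g :=
  ⟨⟨zmod_ext p _ _⟩, ⟨PullbackCone.IsLimit.mk _ (fun s => prod.lift s.fst s.snd)
    (fun _ => prod.lift_fst _ _) (fun _ => prod.lift_snd _ _) fun _ _ h1 h2 =>
      prod.hom_ext (h1.trans (prod.lift_fst _ _).symm) (h2.trans (prod.lift_snd _ _).symm)⟩⟩

theorem snd_smooth {S : Scheme.{0}} (g : S ⟶ Spec (.of (ZMod p))) :
    SmoothOfRelativeDimension 1 (prod.snd : X0 p ⨯ S ⟶ S) :=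
  have := smoothOfRelativeDimension_isStableUnderBaseChange (n := 1)
  MorphismProperty.of_isPullback (P := @SmoothOfRelativeDimension 1) (isPullback_prod p g)
    (s0_smooth p)

theorem countable_pic [Countable A] (φ : ZMod p →+* A) :
    Countable (H1 (K1 (𝟙 (X0 p ⨯ Spec (.of A))))) := by
  let f : X0 p ⨯ Spec (.of A) ⟶ _ := prod.snd
  have hp := isPullback_prod p (Spec.map (CommRingCat.ofHom φ))
  have := snd_smooth p (Spec.map (CommRingCat.ofHom φ))
  have : Smooth f := SmoothOfRelativeDimension.smooth 1 f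
  have : QuasiCompact f := MorphismProperty.of_isPullback (P := @QuasiCompact) hp inferInstance
  have : IsSeparated f := MorphismProperty.of_isPullback (P := @IsSeparated) hp inferInstance
  have := QuasiCompact.compactSpace_of_compactSpace f
  have : (X0 p ⨯ Spec (.of A)).IsSeparated :=
    (HasAffineProperty.iff_of_isAffine (P := @IsSeparated)).mp ‹IsSeparated f›
  obtain ⟨B, h1, h2, h3⟩ := exists_basis f
  refine countable_H1 _ B h1 h2 fun b hb b' hb' => ?_
  have := h3 b hb b' hb'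
  exact (Units.val_injective (α := Γ(X0 p ⨯ Spec (.of A), b ⊓ b'))).countable

end

end Pool.Agent.MP_55d974_ag

end

section
/-!
Test rings and the detecting functional.
-/

open AlgebraicGeometry CategoryTheory Limits TopologicalSpace Opposite HomogeneousLocalization

namespace Pool.Agent.MP_55d974_ag

noncomputable section

variable (p : ℕ) [hp : Fact p.Prime]

/-! ### divisible boundary classes -/

theorem not_div {X Y Z : Scheme.{0}} (g : Z ⟶ X) {hY : (p : Γ(Y, ⊤)) = 0} {a b : Y ⟶ Z}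
    (e : frob p Y hY ≫ a = frob p Y hY ≫ b) {U V : X.Opens} (hUV : ⊤ = U ⊔ V)
    (u : Γ(Z, g ⁻¹ᵁ (U ⊓ V))ˣ) (z : H1 (K1 g))
    (h : bd hUV (F := K1 g) (Additive.ofMul u) = p • z) :
    ∃ (s : Γ(Y, (a ≫ g) ⁻¹ᵁ U)ˣ) (t : Γ(Y, (a ≫ g) ⁻¹ᵁ V)ˣ), ∀ (R : Type) [CommRing R]
      (m : Spec (.of R) ⟶ Y) (e1 : ⊤ ≤ (m ≫ a) ⁻¹ᵁ g ⁻¹ᵁ (U ⊓ V))
      (e2 : ⊤ ≤ (m ≫ b) ⁻¹ᵁ g ⁻¹ᵁ (U ⊓ V)) (e3 : ⊤ ≤ m ⁻¹ᵁ (a ≫ g) ⁻¹ᵁ U)
      (e4 : ⊤ ≤ m ⁻¹ᵁ (a ≫ g) ⁻¹ᵁ V),
      gl (m ≫ b) e2 u * gl m e4 t = gl (m ≫ a) e1 u * gl m e3 s := by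
  have ea : ∀ W : X.Opens, (a ≫ g) ⁻¹ᵁ W ≤ a ⁻¹ᵁ g ⁻¹ᵁ W := fun _ => le_rfl
  have eb : ∀ W : X.Opens, (a ≫ g) ⁻¹ᵁ W ≤ b ⁻¹ᵁ g ⁻¹ᵁ W := fun W => (frob_pre p e (g ⁻¹ᵁ W)).le
  let φ : K1 g ⟶ K1 (a ≫ g) := K1map g (a ≫ g) b eb - K1map g (a ≫ g) a ea
  have hφ : p • φ = 0 := hom_ext' fun W s => by
    rw [ap_nsmul, ap_sub, smul_sub, ap_zero, sub_eq_zero]
    refine Additive.toMul.injective (Units.ext ?_)
    exact (frob_pow p e (ea W) (eb W) (Additive.toMul s).val).symm
  have h0 : bd hUV (ap φ _ (Additive.ofMul u)) = 0 := by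
    rw [← H1map_bd, h, H1map_nsmul_eq_zero hφ]
  obtain ⟨s, t, hst⟩ := exists_of_bd hUV h0
  rw [ap_sub, sub_eq_sub_iff_add_eq_add, add_comm (rs _ _ s)] at hst
  refine ⟨Additive.toMul s, Additive.toMul t, fun R _ m e1 e2 e3 e4 => ?_⟩
  have h1 : pb b (eb _) u.val * (Y.presheaf.map _).hom (Additive.toMul t).val =
      pb a (ea _) u.val * (Y.presheaf.map _).hom (Additive.toMul s).val :=
    congrArg (fun v => (Additive.toMul v).val) hst
  have h2 := congrArg (gl m (U := (a ≫ g) ⁻¹ᵁ (U ⊓ V)) e1) h1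
  rwa [map_mul, map_mul, gl_pb rfl _ _ e2, gl_pb rfl _ _ e1, gl_res _ _ _ e4,
    gl_res _ _ _ e3] at h2

/-! ### dual numbers -/

section Dual

variable {R R' : Type} [CommRing R] [CommRing R']

open TrivSqZeroExt

/-- functoriality of dual numbers -/
def dmap (φ : R →+* R') : DualNumber R →+* DualNumber R' where
  toFun z := ⟨φ z.fst, φ z.snd⟩
  map_one' := by ext <;> simp
  map_mul' x y := by ext <;> simp
  map_zero' := by ext <;> simp
  map_add' x y := by ext <;> simp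

/-- the inclusion -/
def din (R : Type) [CommRing R] : R →+* DualNumber R := algebraMap _ _

theorem dmap_din (φ : R →+* R') : (dmap φ).comp (din R) = (din R').comp φ := by
  ext <;> simp [dmap, din, TrivSqZeroExt.algebraMap_eq_inl]

theorem dmap_dmap {R'' : Type} [CommRing R''] (φ : R →+* R') (ψ : R' →+* R'') :
    (dmap ψ).comp (dmap φ) = dmap (ψ.comp φ) := rfl

theorem dual_unit {z : DualNumber R} (h : IsUnit z) : ∃ r, z.snd = r * z.fst := by
  obtain ⟨w, hw⟩ := (isUnit_iff_isUnit_fst.1 h).exists_left_inv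
  exact ⟨z.snd * w, by rw [mul_assoc, hw, mul_one]⟩

end Dual

/-! ### the ring of functions on the intersection -/

section Ring

open Polynomial

variable (C : Type) [CommRing C]

/-- the equation over Laurent polynomials -/
def PW : Polynomial (LaurentPolynomial C) :=
  X ^ (p + 1) - Polynomial.C (LaurentPolynomial.T p + LaurentPolynomial.T 1)

/-- the test ring -/
abbrev RW : Type := AdjoinRoot (PW p C)

/-- the first coordinate -/
def xW : RW p C := AdjoinRoot.root _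

/-- the powers of the second coordinate -/
def TW (e : ℤ) : RW p C := AdjoinRoot.of _ (LaurentPolynomial.T e)

omit hp

theorem PW_monic : (PW p C).Monic := monic_X_pow_sub_C _ p.succ_ne_zero

theorem TW_add (e e' : ℤ) : TW p C (e + e') = TW p C e * TW p C e' := by
  rw [TW, LaurentPolynomial.T_add, map_mul]; rfl

theorem TW_pow (e : ℤ) (n : ℕ) : TW p C e ^ n = TW p C (n * e) := by
  rw [TW, ← map_pow, LaurentPolynomial.T_pow]; rfl

theorem TW_zero : TW p C 0 = 1 := by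
  rw [TW, LaurentPolynomial.T_zero, map_one]

theorem xW_pow : xW p C ^ (p + 1) = TW p C p + TW p C 1 := by
  have : eval₂ (AdjoinRoot.of (PW p C)) (xW p C)
      (X ^ (p + 1) - Polynomial.C (LaurentPolynomial.T p + LaurentPolynomial.T 1)) = 0 :=
    AdjoinRoot.eval₂_root (PW p C)
  rw [eval₂_sub, eval₂_X_pow, eval₂_C, sub_eq_zero, map_add] at this
  exact this

/-- the coefficient of `x ^ 2 / y` -/
def lam : RW p C →ₗ[C] C :=
  (Finsupp.lapply (-1)) ∘ₗ (AddMonoidAlgebra.coeffLinearEquiv C).toLinearMap ∘ₗ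
    ((lcoeff _ 2) ∘ₗ AdjoinRoot.modByMonicHom (PW_monic p C)).restrictScalars C

theorem lam_low [Nontrivial C] {i : ℕ} (hi : i ≤ p) (e : ℤ) :
    lam p C (xW p C ^ i * TW p C e) = if i = 2 ∧ e = -1 then 1 else 0 := by
  have h1 : xW p C ^ i * TW p C e = AdjoinRoot.mk _ (monomial i (LaurentPolynomial.T e)) := by
    rw [← C_mul_X_pow_eq_monomial, map_mul, map_pow, mul_comm]; rfl
  have h2 : monomial i (LaurentPolynomial.T e) %ₘ PW p C = monomial i (LaurentPolynomial.T e) := by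
    refine (modByMonic_eq_self_iff (PW_monic p C)).2 ((degree_monomial_le _ _).trans_lt ?_)
    rw [PW, degree_X_pow_sub_C p.succ_pos]
    exact_mod_cast Nat.lt_succ_of_le hi
  rw [h1]
  change ((monomial i (LaurentPolynomial.T e) %ₘ PW p C).coeff 2).coeff (-1) = _
  rw [h2, coeff_monomial]
  by_cases h : i = 2 <;> simp [h]

theorem lam_zero [Nontrivial C] (i : ℕ) (e : ℤ) (h : 0 ≤ e ∨ e ≤ -i) :
    lam p C (xW p C ^ i * TW p C e) = 0 := by
  induction i using Nat.strong_induction_on generalizing e with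
  | _ i ih =>
    rcases le_or_gt i p with hi | hi
    · rw [lam_low p C hi, if_neg]
      omega
    · obtain ⟨i, rfl⟩ : ∃ i', i = i' + (p + 1) := ⟨i - (p + 1), by omega⟩
      rw [pow_add, xW_pow, mul_assoc, add_mul, ← TW_add, ← TW_add, mul_add, map_add,
        ih _ (by omega) _ (by omega), ih _ (by omega) _ (by omega), add_zero]

theorem lam_adjoin [Nontrivial C] {e e' : ℤ} (h : (e = 0 ∧ e' = 1) ∨ (e = -1 ∧ e' = -1))
    {r : RW p C} (hr : r ∈ Algebra.adjoin C {xW p C * TW p C e, TW p C e'}) : lam p C r = 0 := by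
  have h1 : r ∈ Submodule.span C (Submonoid.closure {xW p C * TW p C e, TW p C e'} :
      Set (RW p C)) := by
    rw [← Algebra.adjoin_eq_span]
    exact hr
  refine (Submodule.span_le (p := LinearMap.ker (lam p C))).2 (fun w hw => ?_) h1
  obtain ⟨i, j, rfl⟩ := (Submonoid.mem_closure_pair _ _ _).1 hw
  change lam p C _ = 0
  rw [mul_pow, TW_pow, TW_pow, mul_assoc, ← TW_add]
  refine lam_zero p C _ _ ?_
  rcases h with ⟨rfl, rfl⟩ | ⟨rfl, rfl⟩ <;> omega

end Ring

/-! ### points of the curve -/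

theorem gl_away {f : SS p} {d : ℕ} (hf : f ∈ GS p d) (hd : 0 < d) (e) (a : Away (GS p) f) :
    gl (Proj.awayι (GS p) f hf hd) e ((Proj.awayToSection (GS p) f).hom a) = a := by
  have h1 : pb (Proj.basicOpen (GS p) f).ι (W := ⊤) (Scheme.Opens.ι_preimage_self _).ge
      ((Proj.awayToSection (GS p) f).hom a) =
      pb (Proj.basicOpenToSpec (GS p) f) (W := ⊤) le_top (cst a) := by
    rw [pb_top]
    change _ = ((Proj.basicOpenToSpec (GS p) f).app ⊤).hom _
    rw [Proj.basicOpenToSpec_app_top]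
    change _ = (Scheme.Opens.topIso _).inv.hom ((Proj.awayToSection (GS p) f).hom
      ((Scheme.ΓSpecIso _).hom.hom ((Scheme.ΓSpecIso _).inv.hom a)))
    rw [pb, Scheme.Opens.ι_appLE]
    erw [Iso.inv_hom_id_apply]
    rfl
  rw [← gl_pb (Proj.basicOpenIsoSpec_inv_ι (GS p) f hf hd) (Scheme.Opens.ι_preimage_self _).ge
    le_top, h1]
  exact (gl_pb (Proj.basicOpenIsoSpec (GS p) f hf hd).inv_hom_id _ _ le_top _).trans
    (gl_cst (RingHom.id _) (Spec.map_id _).symm _ a)

theorem away_ext {R : Type} [CommRing R] {i : Fin 3} {φ ψ : Away (GS p) (xx p i) →+* R}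
    (h : ∀ l, φ (ξ p i l) = ψ (ξ p i l)) : φ = ψ := by
  ext a
  obtain ⟨P, rfl⟩ := mk_eq_eval i a
  rw [MvPolynomial.eval₂_comp_left, MvPolynomial.eval₂_comp_left, RingHom.ext_zmod (φ.comp _)]
  exact congrArg (fun v => MvPolynomial.eval₂ _ v P) (funext h)

theorem x21_mem : xx p 2 * xx p 1 ∈ GS p (1 + 1) :=
  SetLike.mul_mem_graded (xx_mem p 2) (xx_mem p 1)

variable {C : Type} [CommRing C] (φ : ZMod p →+* C)

/-- the coordinates of the test point -/
def vW (C : Type) [CommRing C] : Fin 3 → RW p C := ![xW p C, TW p C 1, 1]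

omit hp in
theorem vW_eq : vW p C 1 ^ p * vW p C 2 + vW p C 1 * vW p C 2 ^ p = vW p C 0 ^ (p + 1) := by
  simp [vW, xW_pow, TW_pow]

/-- evaluation at the test point -/
def eW : Away (GS p) (xx p 2 * xx p 1) →+* RW p C :=
  evA (evS ((algebraMap C _).comp φ) (vW p C) (vW_eq p)) _ (TW p C (-1)) (by
    rw [map_mul, evS_xx, evS_xx]
    simp [vW, ← TW_add, TW_zero])

/-- the test point -/
def cW : Spec (.of (RW p C)) ⟶ X0 p :=
  Spec.map (CommRingCat.ofHom (eW p φ)) ≫ Proj.awayι (GS p) _ (x21_mem p) two_pos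

theorem cW_le : ⊤ ≤ cW p φ ⁻¹ᵁ Proj.basicOpen (GS p) (xx p 2 * xx p 1) := fun x _ => by
  rw [← Proj.opensRange_awayι (GS p) _ (x21_mem p) two_pos]
  exact ⟨_, rfl⟩

/-- the cocycle `x ^ 2 / y` -/
def α0 : Γ(X0 p, UU p 2 ⊓ UU p 1) :=
  ((X0 p).presheaf.map (homOfLE (Proj.basicOpen_mul (GS p) _ _).ge).op).hom
    ((Proj.awayToSection (GS p) (xx p 2 * xx p 1)).hom
      (Away.mk _ (x21_mem p) 1 (xx p 0 * xx p 0) (SetLike.mul_mem_graded (xx_mem p 0) (xx_mem p 0))))

theorem gl_α0 (e) : gl (cW p φ) e (α0 p) = xW p C ^ 2 * TW p C (-1) := by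
  refine (gl_res _ _ e (cW_le p φ) _).trans ?_
  rw [gl_map (eW p φ) (m' := cW p φ) rfl
    (Proj.opensRange_awayι (GS p) _ (x21_mem p) two_pos ▸ fun x _ => ⟨x, rfl⟩), gl_away, eW,
    evA_mk, map_mul, evS_xx, pow_one, pow_two]
  rfl

/-- the test point of the thickened product -/
def mW : Spec (.of (DualNumber (RW p C))) ⟶ X0 p ⨯ Spec (.of (DualNumber C)) :=
  prod.lift (Spec.map (CommRingCat.ofHom (din _)) ≫ cW p φ)
    (Spec.map (CommRingCat.ofHom (dmap (algebraMap C _))))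

theorem unit_on (i j : Fin 3) (hx : xx p 2 * xx p 1 = xx p i * xx p j)
    (S : Subalgebra C (RW p C)) (hS : ∀ l, vW p C l * (vW p C j * TW p C (-1)) ∈ S)
    (h1 : vW p C i * (vW p C j * TW p C (-1)) = 1) (W : (X0 p ⨯ Spec (.of (DualNumber C))).Opens)
    (hW : (prod.fst : _ ⟶ X0 p) ⁻¹ᵁ UU p i ≤ W) (s : Γ(X0 p ⨯ Spec (.of (DualNumber C)), W)ˣ)
    (e : ⊤ ≤ mW p φ ⁻¹ᵁ W) :
    ∃ r ∈ S, (gl (mW p φ) e s).snd = r * (gl (mW p φ) e s).fst := by
  let v : Fin 3 → S := fun l => ⟨_, hS l⟩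
  have hv : v 1 ^ p * v 2 + v 1 * v 2 ^ p = v 0 ^ (p + 1) := Subtype.ext (by
    have := congrArg (· * (vW p C j * TW p C (-1)) ^ (p + 1)) (vW_eq p (C := C))
    simp only [v, Subalgebra.coe_add, Subalgebra.coe_mul, Subalgebra.coe_pow]
    rw [mul_pow (vW p C 0), ← this]
    ring)
  let eS : Away (GS p) (xx p i) →+* S :=
    evA (evS ((algebraMap C _).comp φ) v hv) _ 1 (by rw [evS_xx, mul_one]; exact Subtype.ext h1)
  have he : (S.val : S →+* _).comp eS = (eW p φ).comp (awayMap (GS p) (xx_mem p j) hx) :=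
    away_ext p fun l => by
      rw [RingHom.comp_apply, RingHom.comp_apply, ξ, awayMap_mk, eW, evA_mk, evA_mk, pow_one,
        pow_one, pow_one, mul_one, map_mul, evS_xx, evS_xx, evS_xx, mul_assoc]
      rfl
  let cS := Spec.map (CommRingCat.ofHom eS) ≫ chart p i
  have hc : Spec.map (CommRingCat.ofHom (S.val : S →+* _)) ≫ cS = cW p φ := by
    rw [← Category.assoc, ← Spec.map_comp, ← CommRingCat.ofHom_comp, he, CommRingCat.ofHom_comp,
      Spec.map_comp, Category.assoc, chart, Proj.SpecMap_awayMap_awayι]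
    rfl
  let mS : Spec (.of (DualNumber S)) ⟶ X0 p ⨯ Spec (.of (DualNumber C)) :=
    prod.lift (Spec.map (CommRingCat.ofHom (din _)) ≫ cS)
      (Spec.map (CommRingCat.ofHom (dmap (algebraMap C _))))
  have hm : Spec.map (CommRingCat.ofHom (dmap (S.val : S →+* _))) ≫ mS = mW p φ := by
    rw [prod.comp_lift, mW, ← hc, ← Category.assoc, ← Category.assoc (Spec.map _) (Spec.map _) cS,
      ← Spec.map_comp, ← Spec.map_comp, ← Spec.map_comp, ← CommRingCat.ofHom_comp,
      ← CommRingCat.ofHom_comp, ← CommRingCat.ofHom_comp, dmap_din]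
    rfl
  have e' : ⊤ ≤ mS ⁻¹ᵁ W := fun x _ => hW (by
    change (mS ≫ prod.fst) x ∈ UU p i
    rw [prod.lift_fst, UU, ← Proj.opensRange_awayι (GS p) _ (xx_mem p i) one_pos]
    exact ⟨_, rfl⟩)
  obtain ⟨r, hr⟩ := dual_unit (s.isUnit.map (gl mS e'))
  refine ⟨r, r.2, ?_⟩
  rw [gl_map _ hm e']
  exact congrArg Subtype.val hr

/-- the value of the cocycle at the test point -/
def GG (c d : C) : DualNumber (RW p C) :=
  1 + din _ (xW p C ^ 2 * TW p C (-1)) * dmap (algebraMap C (RW p C)) ⟨c, d⟩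

omit hp in
theorem GG_fst (c d : C) : (GG p c d).fst = 1 + c • (xW p C ^ 2 * TW p C (-1)) := by
  simp [GG, din, dmap, Algebra.smul_def, mul_comm, TrivSqZeroExt.algebraMap_eq_inl]

omit hp in
theorem GG_snd (c d : C) : (GG p c d).snd = d • (xW p C ^ 2 * TW p C (-1)) := by
  simp [GG, din, dmap, Algebra.smul_def, mul_comm, TrivSqZeroExt.algebraMap_eq_inl]

theorem no_split [Nontrivial C] {W W' : (X0 p ⨯ Spec (.of (DualNumber C))).Opens}
    (hW : (prod.fst : _ ⟶ X0 p) ⁻¹ᵁ UU p 2 ≤ W) (hW' : (prod.fst : _ ⟶ X0 p) ⁻¹ᵁ UU p 1 ≤ W')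
    (s : Γ(X0 p ⨯ Spec (.of (DualNumber C)), W)ˣ) (t : Γ(X0 p ⨯ Spec (.of (DualNumber C)), W')ˣ)
    (e : ⊤ ≤ mW p φ ⁻¹ᵁ W) (e' : ⊤ ≤ mW p φ ⁻¹ᵁ W') {c d : C} (hc : c * c = 0) (hd : c * d = 0)
    (h : GG p c d * gl (mW p φ) e' t = GG p c 0 * gl (mW p φ) e s) : d = 0 := by
  obtain ⟨r, hr, hs⟩ := unit_on p φ 1 2 (mul_comm _ _)
    (Algebra.adjoin C {xW p C * TW p C (-1), TW p C (-1)}) (fun l => by
      fin_cases l
      · simpa [vW] using Algebra.subset_adjoin (by simp)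
      · simp [vW, ← TW_add, TW_zero]
      · simpa [vW] using Algebra.subset_adjoin (by simp))
    (by simp [vW, ← TW_add, TW_zero]) _ hW' t e'
  obtain ⟨r', hr', hs'⟩ := unit_on p φ 2 1 rfl
    (Algebra.adjoin C {xW p C * TW p C 0, TW p C 1}) (fun l => by
      fin_cases l
      · simpa [vW, ← TW_add] using Algebra.subset_adjoin (by simp)
      · simpa [vW, ← TW_add] using Algebra.subset_adjoin (by simp)
      · simp [vW, ← TW_add, TW_zero])
    (by simp [vW, ← TW_add, TW_zero]) _ hW s e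
  obtain ⟨w, hw⟩ := (TrivSqZeroExt.isUnit_iff_isUnit_fst.1
    (t.isUnit.map (gl (mW p φ) e'))).exists_right_inv
  have k1 := congrArg TrivSqZeroExt.fst h
  have k2 := congrArg TrivSqZeroExt.snd h
  rw [TrivSqZeroExt.fst_mul, TrivSqZeroExt.fst_mul, GG_fst, GG_fst] at k1
  rw [DualNumber.snd_mul, DualNumber.snd_mul, GG_fst, GG_snd, GG_fst, GG_snd, zero_smul, hs,
    hs'] at k2
  generalize (gl (mW p φ) e' t).fst = b at hw k1 k2
  generalize (gl (mW p φ) e s).fst = a at k1 k2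
  have hl := lam_low p C hp.out.two_le (-1)
  generalize xW p C ^ 2 * TW p C (-1) = α at k1 k2 hl
  have c1 : c • α * c • α = 0 := by rw [smul_mul_smul_comm, hc, zero_smul]
  have c2 : c • α * d • α = 0 := by rw [smul_mul_smul_comm, hd, zero_smul]
  have k3 : r + d • α = r' := by
    have : b = a := by linear_combination (1 - c • α) * k1 + (b - a) * c1
    subst this
    linear_combination (1 - c • α) * w * k2 + (r - r') * b * w * c1 + b * w * c2 -
      (r + d • α - r') * hw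
  have := congrArg (lam p C) k3
  rwa [map_add, map_smul, hl, lam_adjoin p C (Or.inr ⟨rfl, rfl⟩) hr,
    lam_adjoin p C (Or.inl ⟨rfl, rfl⟩) hr', if_pos ⟨rfl, rfl⟩, zero_add, smul_eq_mul,
    mul_one] at this

end

end Pool.Agent.MP_55d974_ag

end

end MrgPart3

-- ======== part 4: formerly Pool.Agent.MP_55d974_ag.Final
section MrgPart4

/-!
The classes of `1 + t ^ m x ^ 2 / y`.
-/

open AlgebraicGeometry CategoryTheory Limits TopologicalSpace Opposite

namespace Pool.Agent.MP_55d974_ag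

noncomputable section

section Units

variable {A : Type} [CommRing A] {X : Scheme.{0}} (f : X ⟶ Spec (.of A)) (π : A) {W : X.Opens}

/-- the uniformiser as a section -/
def tau (W : X.Opens) : Γ(X, W) := pb f (U := ⊤) le_top (cst π)

theorem tau_pow (n : ℕ) : pb (thick f π n) le_rfl (tau f π W) ^ n = 0 := by
  have h : pb (thick f π n) le_rfl (tau f π W) = pb (pullback.snd f (baseι π n)) (U := ⊤) le_top
      (pb (baseι π n) (U := ⊤) (W := ⊤) le_top (cst π)) :=
    (pb_pb rfl _ _ le_top _).trans (pb_pb pullback.condition.symm _ _ le_top _).symm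
  have h2 : pb (baseι π n) (U := ⊤) (W := ⊤) le_top (cst π) = cst (Ideal.Quotient.mk _ π) :=
    pb_cst _ _ _
  rw [h, h2, ← map_pow, ← map_pow, ← map_pow,
    Ideal.Quotient.eq_zero_iff_mem.2 (Ideal.mem_span_singleton_self _), map_zero, map_zero]

theorem un_isUnit (α : Γ(X, W)) (m n : ℕ) :
    IsUnit (pb (thick f π n) le_rfl (1 + α * tau f π W ^ (m + 1))) := by
  rw [map_add, map_one]
  refine IsNilpotent.isUnit_one_add ⟨n, ?_⟩
  rw [map_mul, map_pow, mul_pow, ← pow_mul, mul_comm (m + 1), pow_mul, tau_pow, zero_pow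
    m.succ_ne_zero, mul_zero]

/-- the unit `1 + α π ^ (m + 1)` on the thickening -/
def un (α : Γ(X, W)) (m n : ℕ) : (K1 (thick f π n)).obj.obj (op W) :=
  Additive.ofMul (un_isUnit f π α m n).unit

theorem trans_un (α : Γ(X, W)) (m n : ℕ) :
    ap (trans f π n) W (un f π α m (n + 1)) = un f π α m n :=
  Additive.toMul.injective (Units.ext (pb_pb (step_thick f π n) _ _ le_rfl _))

theorem un_zero (α : Γ(X, W)) {m n : ℕ} (h : n ≤ m + 1) : un f π α m n = 0 := by
  refine Additive.toMul.injective (Units.ext ?_)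
  change pb (thick f π n) le_rfl (1 + α * tau f π W ^ (m + 1)) = 1
  rw [map_add, map_one, map_mul, map_pow, pow_eq_zero_of_le h (tau_pow f π n), mul_zero, add_zero]

end Units

variable (p : ℕ) [hp : Fact p.Prime]

section Maps

variable {A D : Type} [CommRing A] [CommRing D] (π : A) (n : ℕ)

/-- the induced map on the truncation -/
def quo (ψ : A →+* D) (h : ψ π ^ n = 0) : A ⧸ Ideal.span {π ^ n} →+* D :=
  Ideal.Quotient.lift _ ψ fun a ha => by
    obtain ⟨b, rfl⟩ := Ideal.mem_span_singleton'.1 ha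
    rw [map_mul, map_pow, h, mul_zero]

/-- the map to the thickening -/
def mY (ψ : A →+* D) (h : ψ π ^ n = 0) :
    X0 p ⨯ Spec (.of D) ⟶ pullback (prod.snd : X0 p ⨯ Spec (.of A) ⟶ _) (baseι π n) :=
  pullback.lift (prod.lift prod.fst (prod.snd ≫ Spec.map (CommRingCat.ofHom ψ)))
    (prod.snd ≫ Spec.map (CommRingCat.ofHom (quo π n ψ h))) (by
      rw [prod.lift_snd, Category.assoc, baseι, ← Spec.map_comp]
      rfl)

theorem mY_fst (ψ : A →+* D) (h : ψ π ^ n = 0) :
    (mY p π n ψ h ≫ thick prod.snd π n) ≫ prod.fst = prod.fst := by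
  rw [mY, thick, pullback.lift_fst, prod.lift_fst]

theorem mY_snd (ψ : A →+* D) (h : ψ π ^ n = 0) : (mY p π n ψ h ≫ thick prod.snd π n) ≫ prod.snd =
    prod.snd ≫ Spec.map (CommRingCat.ofHom ψ) := by
  rw [mY, thick, pullback.lift_fst, prod.lift_snd]

theorem p_prod (S : Scheme.{0}) : (p : Γ(X0 p ⨯ S, ⊤)) = 0 := by
  rw [← map_natCast (((prod.fst ≫ s0 p).appTop).hom.comp cst), ZMod.natCast_self, map_zero]

theorem frob_mY (ψ ψ' : A →+* D) (h : ψ π ^ n = 0) (h' : ψ' π ^ n = 0)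
    (e : ∀ a, ψ a ^ p = ψ' a ^ p) : frob p _ (p_prod p _) ≫ mY p π n ψ h =
      frob p _ (p_prod p _) ≫ mY p π n ψ' h' := by
  refine pullback.hom_ext (prod.hom_ext ?_ ?_) ?_
  · simp only [Category.assoc, mY, pullback.lift_fst_assoc, prod.lift_fst]
  · simp only [Category.assoc, mY, pullback.lift_fst_assoc, prod.lift_snd]
    exact frob_spec p _ _ e
  · simp only [Category.assoc, mY, pullback.lift_snd]
    refine frob_spec p _ _ fun a => ?_
    obtain ⟨a, rfl⟩ := Ideal.Quotient.mk_surjective a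
    exact e a

end Maps

section Euler

open PowerSeries

variable {k C : Type} [CommRing k] [CommRing C] (q : k⟦X⟧ →+* C) (c : C)

/-- the deformation along the Euler vector field -/
def eul : k⟦X⟧ →+* DualNumber C where
  toFun a := ⟨q a, c * q (X * d⁄dX k a)⟩
  map_one' := by ext <;> simp
  map_mul' x y := by
    ext
    · simp
    · simp [Derivation.leibniz]; ring
  map_zero' := by ext <;> simp
  map_add' x y := by ext <;> simp [mul_add]

omit hp in
theorem eul_pow (n : ℕ) : eul q c X ^ n = ⟨q X ^ n, n * c * q X ^ n⟩ := by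
  induction n with
  | zero => ext <;> simp
  | succ n ih =>
    rw [pow_succ, ih]
    ext
    · simp [eul, pow_succ]
    · simp [eul]; ring

omit hp in
theorem eul_frob (h : (p : C) = 0) (c' : C) (a : k⟦X⟧) : eul q c a ^ p = eul q c' a ^ p := by
  ext
  · rw [TrivSqZeroExt.fst_pow, TrivSqZeroExt.fst_pow]; rfl
  · rw [TrivSqZeroExt.snd_pow, TrivSqZeroExt.snd_pow, nsmul_eq_mul, nsmul_eq_mul, h, zero_mul,
      zero_mul]

end Euler

/-- the standard open sets of the product -/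
abbrev UX (S : Scheme.{0}) (i : Fin 3) : (X0 p ⨯ S).Opens := (prod.fst : _ ⟶ X0 p) ⁻¹ᵁ UU p i

theorem coverX (S : Scheme.{0}) : ⊤ = UX p S 2 ⊔ UX p S 1 :=
  congrArg (fun W => (prod.fst : X0 p ⨯ S ⟶ X0 p) ⁻¹ᵁ W) (cover p)

/-- the cocycle on the product -/
abbrev αX (S : Scheme.{0}) : Γ(X0 p ⨯ S, UX p S 2 ⊓ UX p S 1) := pb prod.fst le_rfl (α0 p)

theorem not_dvd_of {A C : Type} [CommRing A] [CommRing C] [Nontrivial C] (φ : ZMod p →+* C) (π : A)
    (m n : ℕ) (ψ ψ' : A →+* DualNumber C) (h0 : ψ π ^ n = 0) (h0' : ψ' π ^ n = 0)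
    (e : ∀ a, ψ a ^ p = ψ' a ^ p) {c d : C} (h1 : ψ π ^ (m + 1) = ⟨c, 0⟩)
    (h2 : ψ' π ^ (m + 1) = ⟨c, d⟩) (hc : c * c = 0) (hd : c * d = 0) (z)
    (h : bd (coverX p _) (un prod.snd π (αX p _) m n) = p • z) : d = 0 := by
  obtain ⟨s, t, hst⟩ := not_div p (thick prod.snd π n) (frob_mY p π n ψ ψ' h0 h0' e)
    (coverX p _) _ z h
  have hf : ∀ (χ : A →+* DualNumber C) hχ, (mW p φ ≫ mY p π n χ hχ ≫ thick prod.snd π n) ≫
      prod.fst = Spec.map (CommRingCat.ofHom (din _)) ≫ cW p φ := fun χ hχ => by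
    rw [Category.assoc, mY_fst, mW, prod.lift_fst]
  have hs : ∀ (χ : A →+* DualNumber C) hχ, (mW p φ ≫ mY p π n χ hχ ≫ thick prod.snd π n) ≫
      prod.snd = Spec.map (CommRingCat.ofHom ((dmap (algebraMap C (RW p C))).comp χ)) :=
    fun χ hχ => by
      rw [Category.assoc, mY_snd, mW, prod.lift_snd_assoc, ← Spec.map_comp]
      rfl
  have e0 : ⊤ ≤ cW p φ ⁻¹ᵁ (UU p 2 ⊓ UU p 1) :=
    (Proj.basicOpen_mul (GS p) _ _ ▸ cW_le p φ :)
  have e1 : ∀ (χ : A →+* DualNumber C) hχ, ⊤ ≤ (mW p φ ≫ mY p π n χ hχ ≫ thick prod.snd π n) ⁻¹ᵁ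
      (UX p _ 2 ⊓ UX p _ 1) := fun χ hχ => by
    change ⊤ ≤ ((mW p φ ≫ mY p π n χ hχ ≫ thick prod.snd π n) ≫ prod.fst) ⁻¹ᵁ (UU p 2 ⊓ UU p 1)
    rw [hf]
    exact fun x _ => e0 trivial
  have hW : ∀ i, (prod.fst : _ ⟶ X0 p) ⁻¹ᵁ UU p i ≤
      (mY p π n ψ h0 ≫ thick prod.snd π n) ⁻¹ᵁ UX p _ i := fun i => by
    rw [UX, ← Scheme.Hom.comp_preimage, mY_fst]
  have key : ∀ (χ : A →+* DualNumber C) hχ e' d', χ π ^ (m + 1) = ⟨c, d'⟩ →
      gl (mW p φ ≫ mY p π n χ hχ) e' (un_isUnit prod.snd π (αX p _) m n).unit.val = GG p c d' := by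
    intro χ hχ e' d' h3
    refine (gl_pb (Category.assoc _ _ _) le_rfl e' (e1 χ hχ) _).trans ?_
    have k1 : gl _ (e1 χ hχ) (αX p _) = din _ (xW p C ^ 2 * TW p C (-1)) :=
      (gl_pb (hf χ hχ) _ _ (fun x _ => e0 trivial) _).trans
        ((gl_map _ rfl e0 _ _).trans (congrArg _ (gl_α0 p φ e0)))
    have k2 : gl _ (e1 χ hχ) (tau prod.snd π _) = dmap (algebraMap C (RW p C)) (χ π) :=
      (gl_pb (hs χ hχ) _ _ le_top _).trans (gl_cst _ rfl _ _)
    rw [map_add, map_one, map_mul, map_pow, k1, k2, ← map_pow, h3, GG]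
  have h3 := hst _ (mW p φ) (e1 ψ h0) (e1 ψ' h0') (fun x hx => (e1 ψ h0 hx).1)
    (fun x hx => (e1 ψ h0 hx).2)
  rw [key ψ h0 _ _ h1, key ψ' h0' _ _ h2] at h3
  exact no_split p φ (hW 2) (hW 1) s t _ _ hc hd h3

open PowerSeries in
theorem not_dvd (m : ℕ) (hm : p ∣ m) (z) :
    bd (coverX p _) (un prod.snd (tt (ZMod p)) (αX p _) m (m + 1 + 1)) ≠ p • z := by
  intro h
  let C : Type := (ZMod p)⟦X⟧ ⧸ Ideal.span {(X : (ZMod p)⟦X⟧) ^ (m + 1 + 1)}
  let q : (ZMod p)⟦X⟧ →+* C := Ideal.Quotient.mk _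
  let φ' : ZMod p →+* C := q.comp PowerSeries.C
  have hpC : (p : C) = 0 := by rw [← map_natCast φ', ZMod.natCast_self, map_zero]
  have hq : q X ^ (m + 1 + 1) = 0 := by
    rw [← map_pow]
    exact Ideal.Quotient.eq_zero_iff_mem.2 (Ideal.mem_span_singleton_self _)
  have hq' : q X ^ (m + 1) ≠ 0 := fun h0 => by
    rw [← map_pow] at h0
    have := X_pow_dvd_iff.1 (Ideal.mem_span_singleton.1 (Ideal.Quotient.eq_zero_iff_mem.1 h0))
      (m + 1) (by omega)
    simp at this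
  have : Nontrivial C := nontrivial_of_ne _ _ hq'
  let ψ : C → (Alg (ZMod p) →+* DualNumber C) := fun c => (eul q c).comp (Alg (ZMod p)).val
  have hψ : ∀ c (n : ℕ), ψ c (tt _) ^ n = ⟨q X ^ n, n * c * q X ^ n⟩ := fun c n => eul_pow q c n
  have hψ0 : ∀ c, ψ c (tt _) ^ (m + 1 + 1) = 0 := fun c => by
    rw [hψ, hq, mul_zero]; rfl
  have hc : q X ^ (m + 1) * q X ^ (m + 1) = 0 := by
    rw [← pow_add]
    exact pow_eq_zero_of_le (by omega) hq
  obtain ⟨l, rfl⟩ := hm
  refine hq' (not_dvd_of p φ' (tt _) _ _ (ψ 0) (ψ 1) (hψ0 0) (hψ0 1)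
    (fun a => eul_frob p q 0 hpC 1 a.1) ?_ ?_ hc hc z h)
  · rw [hψ, mul_zero, zero_mul]
  · rw [hψ, Nat.cast_succ, Nat.cast_mul, hpC, zero_mul, zero_add, one_mul, one_mul]

theorem residue_bij (k : Type) [Field k] : Function.Bijective
    ((IsLocalRing.residue (Alg k)).comp ((algebraMap (Polynomial k) (Alg k)).comp Polynomial.C)) := by
  refine ⟨RingHom.injective _, fun a => ?_⟩
  obtain ⟨a, rfl⟩ := IsLocalRing.residue_surjective a
  refine ⟨PowerSeries.constantCoeff a.1, Ideal.Quotient.eq.2 (Alg_max.2 ?_)⟩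
  rw [Ideal.mem_span_singleton, PowerSeries.X_dvd_iff]
  simp [PowerSeries.algebraMap_apply']

theorem main : ∃ y : ∀ n, H1 (K1 (thick (prod.snd : X0 p ⨯ Spec (.of (Alg (ZMod p))) ⟶ _)
      (tt (ZMod p)) (n + 1))), (∀ n, H1map (trans _ _ (n + 1)) (y (n + 1)) = y n) ∧
      ∀ c : H1 (K1 (𝟙 _)), ∃ n, ∀ z : H1 (K1 _),
        H1map (restr _ _ (n + 1)) c - y n ≠ p • z := by
  have := countable_pic p ((algebraMap (Polynomial (ZMod p)) (Alg (ZMod p))).comp Polynomial.C)
  refine diag (fun n => H1map (trans _ _ (n + 1))) (fun n c => H1map (restr _ _ (n + 1)) c) p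
    (fun i => p * i + 1) (fun i j h => Nat.succ_lt_succ ((Nat.mul_lt_mul_left hp.out.pos).2 h))
    (fun i n => bd (coverX p _) (un prod.snd (tt (ZMod p)) (αX p _) (p * i) (n + 1)))
    (fun i n => ?_) (fun i n h => ?_) fun i z => not_dvd p _ (dvd_mul_right p i) z
  · rw [H1map_bd, trans_un]
  · rw [un_zero _ _ _ h, ← sub_self 0, bd_sub, sub_self]

end

end Pool.Agent.MP_55d974_ag

end MrgPart4

-- marker of a merged file
example : 731051 + 799355 = 731051 + 799355 := rfl
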